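import Pool.Agent.FourLin.Circ

/-!
Circulations supported on at most five edges, for graphs in which four-cycles and five-cycles have
chords.
-/

set_option linter.unusedSectionVars false
set_option linter.unusedSimpArgs false

namespace Pool.Agent.FourLin

open Finset

/-- No set of five edges of a bipartite graph without parallel edges has all degrees at least
two. -/
lemma no_five {I A B : Type*} [DecidableEq I] (S : Finset I) (hS : S.card = 5) (P : I → A)
    (Q : I → B) (hinj : ∀ e ∈ S, ∀ e' ∈ S, P e = P e' → Q e = Q e' → e = e')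
    (hP : ∀ e ∈ S, ∃ e' ∈ S, e' ≠ e ∧ P e' = P e)
    (hQ : ∀ e ∈ S, ∃ e' ∈ S, e' ≠ e ∧ Q e' = Q e) : False := by
  obtain ⟨e1, h1⟩ : S.Nonempty := by
    rw [← Finset.card_pos, hS]; norm_num
  obtain ⟨e2, h2, n21, p21⟩ := hP e1 h1
  have q21 : Q e2 ≠ Q e1 := fun h => n21 (hinj _ h2 _ h1 p21 h)
  obtain ⟨e3, h3, n31, q31⟩ := hQ e1 h1
  have p31 : P e3 ≠ P e1 := fun h => n31 (hinj _ h3 _ h1 h q31)
  obtain ⟨e4, h4, n42, q42⟩ := hQ e2 h2
  have p42 : P e4 ≠ P e2 := fun h => n42 (hinj _ h4 _ h2 h q42)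
  have n32 : e3 ≠ e2 := by rintro rfl; exact q21 q31
  have n41 : e4 ≠ e1 := by rintro rfl; exact q21 q42.symm
  have n43 : e4 ≠ e3 := by rintro rfl; exact q21 (q42.symm.trans q31)
  have hsub : ({e1, e2, e3, e4} : Finset I) ⊆ S := by
    intro x hx
    simp only [mem_insert, mem_singleton] at hx
    rcases hx with rfl | rfl | rfl | rfl <;> assumption
  have hc4 : ({e1, e2, e3, e4} : Finset I).card = 4 := by
    rw [card_insert_of_notMem, card_insert_of_notMem, card_insert_of_notMem, card_singleton]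
    · simpa using n43.symm
    · simp [n32.symm, n42.symm]
    · simp [n21.symm, n31.symm, n41.symm]
  obtain ⟨e5, h5, hn5⟩ : ∃ e5 ∈ S, e5 ∉ ({e1, e2, e3, e4} : Finset I) := by
    by_contra hcon
    push Not at hcon
    have := Finset.card_le_card (show S ⊆ {e1, e2, e3, e4} from hcon)
    omega
  simp only [mem_insert, mem_singleton, not_or] at hn5
  obtain ⟨n51, n52, n53, n54⟩ := hn5
  have hall : ∀ e ∈ S, e = e1 ∨ e = e2 ∨ e = e3 ∨ e = e4 ∨ e = e5 := by
    intro e he
    by_contra hcon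
    push Not at hcon
    obtain ⟨m1, m2, m3, m4, m5⟩ := hcon
    have hsub : ({e, e5, e1, e2, e3, e4} : Finset I) ⊆ S := by
      intro x hx
      simp only [mem_insert, mem_singleton] at hx
      rcases hx with rfl | rfl | rfl | rfl | rfl | rfl <;> assumption
    have hc6 : ({e, e5, e1, e2, e3, e4} : Finset I).card = 6 := by
      rw [card_insert_of_notMem, card_insert_of_notMem, hc4]
      · simp [n51, n52, n53, n54]
      · simp [m1, m2, m3, m4, m5]
    have := Finset.card_le_card hsub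
    omega
  -- the value of `Q` at `e5` is new
  have key : Q e5 ≠ Q e1 → Q e5 ≠ Q e2 → False := by
    intro k1 k2
    obtain ⟨e6, h6, n65, q65⟩ := hQ e5 h5
    rcases hall e6 h6 with rfl | rfl | rfl | rfl | rfl
    · exact k1 q65.symm
    · exact k2 q65.symm
    · exact k1 (q65.symm.trans q31)
    · exact k2 (q65.symm.trans q42)
    · exact n65 rfl
  by_cases hp : P e5 = P e1
  · exact key (fun h => n51 (hinj _ h5 _ h1 hp h))
      (fun h => n52 (hinj _ h5 _ h2 (hp.trans p21.symm) h))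
  · have hp2 : P e4 ≠ P e1 := fun h => p42 (h.trans p21.symm)
    -- all of e3, e4, e5 have the same value of P
    have a3 : P e3 = P e4 ∨ P e3 = P e5 := by
      obtain ⟨e6, h6, n63, q63⟩ := hP e3 h3
      rcases hall e6 h6 with rfl | rfl | rfl | rfl | rfl
      · exact absurd q63.symm p31
      · exact absurd (q63.symm.trans p21) p31
      · exact absurd rfl n63
      · exact Or.inl q63.symm
      · exact Or.inr q63.symm
    have a4 : P e4 = P e3 ∨ P e4 = P e5 := by
      obtain ⟨e6, h6, n63, q63⟩ := hP e4 h4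
      rcases hall e6 h6 with rfl | rfl | rfl | rfl | rfl
      · exact absurd q63.symm hp2
      · exact absurd q63.symm p42
      · exact Or.inl q63.symm
      · exact absurd rfl n63
      · exact Or.inr q63.symm
    have a5 : P e5 = P e3 ∨ P e5 = P e4 := by
      obtain ⟨e6, h6, n63, q63⟩ := hP e5 h5
      rcases hall e6 h6 with rfl | rfl | rfl | rfl | rfl
      · exact absurd q63.symm hp
      · exact absurd (q63.symm.trans p21) hp
      · exact Or.inl q63.symm
      · exact Or.inr q63.symm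
      · exact absurd rfl n63
    have b3 : P e5 = P e3 := by
      rcases a5 with h | h
      · exact h
      · rcases a3 with h' | h'
        · exact h.trans h'.symm
        · exact h'.symm
    have b4 : P e5 = P e4 := by
      rcases a5 with h | h
      · rcases a4 with h' | h'
        · exact h.trans h'.symm
        · exact h'.symm
      · exact h
    exact key (fun h => n53 (hinj _ h5 _ h3 b3 (h.trans q31.symm)))
      (fun h => n54 (hinj _ h5 _ h4 b4 (h.trans q42.symm)))

variable {X I T : Type*} [DecidableEq X] [Fintype I] [DecidableEq I]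

namespace TGraph

variable (Γ : TGraph X I T)

/-- Every five-cycle has a chord. (Up to direction a five-cycle has four forward edges and one
backward edge `c`; the vertices are `src a`, `tgt a`, `tgt b`, `src c`, `tgt d`.) -/
def Penta : Prop :=
  ∀ a b c d e : I, Γ.tgt a = Γ.src b → Γ.tgt b = Γ.tgt c → Γ.src c = Γ.src d →
    Γ.tgt d = Γ.src e → Γ.tgt e = Γ.src a →
    b = c ∨ c = d ∨ (∃ f, Γ.src f = Γ.tgt b ∧ Γ.tgt f = Γ.src a) ∨
      (∃ f, Γ.src f = Γ.src a ∧ Γ.tgt f = Γ.src c)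

/-- The three kinds of circulations with at most five edges. -/
def Short5 (α : I → ℝ) : Prop :=
  (∃ s : ℝ, s ≠ 0 ∧ ∃ t, ∀ u : I → ℝ, ∑ e, α e * u e = s * Γ.tau t u) ∨
  (∃ s s' : ℝ, s ≠ 0 ∧ s' ≠ 0 ∧ (∃ e, |α e| = |s|) ∧ (∃ e, |α e| = |s'|) ∧
    ∃ t t' k, t ≠ t' ∧ Γ.edge t k = Γ.edge t' k ∧
      ∀ u : I → ℝ, ∑ e, α e * u e = s * Γ.tau t u + s' * Γ.tau t' u) ∨
  (∃ s : ℝ, s ≠ 0 ∧ ∃ t t' t'', ∀ u : I → ℝ,
    ∑ e, α e * u e = s * (Γ.tau t u + Γ.tau t' u - Γ.tau t'' u))

lemma z3_cases : ∀ k j : ZMod 3, j = k ∨ j = k + 1 ∨ j = k + 2 := by decide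

lemma z3_add (k : ZMod 3) : k + 2 = k + 1 + 1 := by
  revert k; decide

/-- The indicator vector of a triangle. -/
def tv (t : T) (e : I) : ℝ := if e = Γ.edge t (Γ.col (Γ.src e)) then 1 else 0

lemma tv_edge (t : T) (k : ZMod 3) : Γ.tv t (Γ.edge t k) = 1 := by
  unfold tv
  rw [Γ.edge_col, if_pos rfl]

lemma tv_edge_ne {t t' : T} {k : ZMod 3} (h : Γ.edge t' k ≠ Γ.edge t k) :
    Γ.tv t (Γ.edge t' k) = 0 := by
  unfold tv
  rw [Γ.edge_col, if_neg h]

lemma eq_of_tv_ne {t : T} {e : I} (h : Γ.tv t e ≠ 0) : e = Γ.edge t (Γ.col (Γ.src e)) := by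
  by_contra hc
  apply h
  unfold tv
  rw [if_neg hc]

lemma tau_eq_sum (t : T) (u : I → ℝ) : Γ.tau t u = ∑ e, Γ.tv t e * u e := by
  unfold tau
  have h1 : ∀ k, u (Γ.edge t k) = ∑ e, if e = Γ.edge t k then u e else 0 := by
    intro k; simp
  simp only [h1]
  rw [Finset.sum_comm]
  refine Finset.sum_congr rfl fun e _ => ?_
  rw [Finset.sum_eq_single (Γ.col (Γ.src e))]
  · unfold tv; split_ifs <;> simp
  · intro k _ hk
    rw [if_neg]
    rintro rfl
    exact hk (Γ.edge_col t k).symm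
  · intro h; exact absurd (mem_univ _) h

lemma circ_tv (t : T) : Γ.IsCirc (Γ.tv t) := by
  intro x
  have h1 := Γ.tau_eq_sum t (fun e => if Γ.src e = x then 1 else 0)
  have h2 := Γ.tau_eq_sum t (fun e => if Γ.tgt e = x then 1 else 0)
  simp only [mul_ite, mul_one, mul_zero] at h1 h2
  rw [← h1, ← h2]
  unfold tau
  simp only [Γ.edge_next]
  exact (Equiv.sum_comp (Equiv.addRight (1 : ZMod 3))
    (fun k => if Γ.src (Γ.edge t k) = x then (1 : ℝ) else 0)).symm

variable {Γ} in
lemma IsCirc.sub_mul {α β : I → ℝ} (hα : Γ.IsCirc α) (hβ : Γ.IsCirc β) (a : ℝ) :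
    Γ.IsCirc (fun e => α e - a * β e) := by
  intro x
  have h1 := hα x
  have h2 := hβ x
  have e : ∀ (p : I → Prop) [DecidablePred p], ∑ e, (if p e then α e - a * β e else 0) =
      ∑ e, (if p e then α e else 0) - a * ∑ e, (if p e then β e else 0) := by
    intro p _
    rw [mul_sum, ← sum_sub_distrib]
    refine sum_congr rfl fun e _ => ?_
    split_ifs <;> ring
  rw [e, e, h1, h2]

lemma vec_of {α β : I → ℝ} (h : ∀ u : I → ℝ, ∑ e, α e * u e = ∑ e, β e * u e) (e : I) :
    α e = β e := by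
  have := h (Pi.single e 1)
  simpa [Pi.single_apply] using this

lemma classify_vec {α : I → ℝ} (hc : Γ.IsCirc α) (hcard : (univ.filter (α · ≠ 0)).card ≤ 4)
    (h0 : α ≠ 0) : (∃ s : ℝ, s ≠ 0 ∧ ∃ t, ∀ e, α e = s * Γ.tv t e) ∨
    (∃ s : ℝ, s ≠ 0 ∧ ∃ t t' k, t ≠ t' ∧ Γ.edge t k = Γ.edge t' k ∧
      ∀ e, α e = s * (Γ.tv t e - Γ.tv t' e)) := by
  rcases Γ.classify hc hcard h0 with ⟨s, hs, t, h⟩ | ⟨s, hs, t, t', k, hne, hk, h⟩
  · refine Or.inl ⟨s, hs, t, vec_of fun u => ?_⟩
    rw [h, tau_eq_sum, mul_sum]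
    exact sum_congr rfl fun e _ => by ring
  · refine Or.inr ⟨s, hs, t, t', k, hne, hk, vec_of fun u => ?_⟩
    rw [h, tau_eq_sum, tau_eq_sum, ← sum_sub_distrib, mul_sum]
    exact sum_congr rfl fun e _ => by ring

lemma tv_congr {t t' : T} {k : ZMod 3} (h0 : Γ.edge t k = Γ.edge t' k)
    (h1 : Γ.edge t (k + 1) = Γ.edge t' (k + 1)) (e : I) : Γ.tv t e = Γ.tv t' e := by
  have hk3 : k + 1 + 1 + 1 = k := (z3 k).2.2.1
  have h2 : Γ.edge t (k + 1 + 1) = Γ.edge t' (k + 1 + 1) := by
    apply Γ.simple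
    · rw [← Γ.edge_next, ← Γ.edge_next, h1]
    · rw [Γ.edge_next, Γ.edge_next, hk3, h0]
  have hall : ∀ j, Γ.edge t j = Γ.edge t' j := by
    intro j
    rcases z3_cases k j with rfl | rfl | rfl
    · exact h0
    · exact h1
    · rw [z3_add]; exact h2
  unfold tv
  rw [hall]

lemma edge_eq_of_tv {t t' : T} (h : ∀ e, Γ.tv t e = Γ.tv t' e) (k : ZMod 3) :
    Γ.edge t k = Γ.edge t' k := by
  have h1 : Γ.tv t' (Γ.edge t k) ≠ 0 := by
    rw [← h, tv_edge]; exact one_ne_zero
  have := Γ.eq_of_tv_ne h1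
  rwa [Γ.edge_col] at this

lemma short5_one {α : I → ℝ} {a : ℝ} (ha : a ≠ 0) {t : T} (h : ∀ e, α e = a * Γ.tv t e) :
    Γ.Short5 α := by
  refine Or.inl ⟨a, ha, t, fun u => ?_⟩
  rw [tau_eq_sum, mul_sum]
  exact sum_congr rfl fun e _ => by rw [h]; ring

lemma short5_two {α : I → ℝ} {p q : ℝ} {t t' : T} {k : ZMod 3} (hk : Γ.edge t k = Γ.edge t' k)
    (h : ∀ e, α e = p * Γ.tv t e + q * Γ.tv t' e) (h0 : α ≠ 0) : Γ.Short5 α := by
  by_cases hp : p = 0
  · have hq : q ≠ 0 := by
      rintro rfl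
      apply h0
      funext e
      rw [h, hp]
      simp
    exact Γ.short5_one hq (t := t') fun e => by rw [h, hp]; ring
  by_cases hq : q = 0
  · exact Γ.short5_one hp (t := t) fun e => by rw [h, hq]; ring
  by_cases hv : ∀ e, Γ.tv t e = Γ.tv t' e
  · have hpq : p + q ≠ 0 := by
      intro hpq
      apply h0
      funext e
      rw [h, hv, ← add_mul, hpq, zero_mul]
      rfl
    exact Γ.short5_one hpq (t := t') fun e => by rw [h, hv]; ring
  have hxy : Γ.edge t (k + 1) ≠ Γ.edge t' (k + 1) := fun h1 => hv (Γ.tv_congr hk h1)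
  refine Or.inr (Or.inl ⟨p, q, hp, hq, ⟨Γ.edge t (k + 1), ?_⟩, ⟨Γ.edge t' (k + 1), ?_⟩, t, t', k,
    ?_, hk, fun u => ?_⟩)
  · rw [h, tv_edge, Γ.tv_edge_ne hxy]
    simp
  · rw [h, tv_edge, Γ.tv_edge_ne hxy.symm]
    simp
  · rintro rfl
    exact hxy rfl
  · rw [tau_eq_sum, tau_eq_sum, mul_sum, mul_sum, ← sum_add_distrib]
    exact sum_congr rfl fun e _ => by rw [h]; ring

lemma short5_three {α : I → ℝ} {s : ℝ} (hs : s ≠ 0) {t t' t'' : T}
    (h : ∀ e, α e = s * (Γ.tv t e + Γ.tv t' e - Γ.tv t'' e)) : Γ.Short5 α := by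
  refine Or.inr (Or.inr ⟨s, hs, t, t', t'', fun u => ?_⟩)
  rw [tau_eq_sum, tau_eq_sum, tau_eq_sum, ← sum_add_distrib, ← sum_sub_distrib, mul_sum]
  exact sum_congr rfl fun e _ => by rw [h]; ring

/-- Two different triangles with a common edge `k` have different edges `j ≠ k`. -/
lemma edge_ne_of {t t' : T} {k j : ZMod 3} (hk : Γ.edge t k = Γ.edge t' k)
    (hne : ¬ ∀ e, Γ.tv t e = Γ.tv t' e) (hj : j ≠ k) : Γ.edge t j ≠ Γ.edge t' j := by
  intro h
  apply hne
  rcases z3_cases k j with rfl | rfl | rfl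
  · exact absurd rfl hj
  · exact Γ.tv_congr hk h
  · have hk3 : k + 2 + 1 = k := by rw [z3_add]; exact (z3 k).2.2.1
    refine Γ.tv_congr (k := k + 2) h ?_
    rw [hk3]
    exact hk

/-- Circulations on at most five edges whose support contains a triangle. -/
lemma short5_of_triangle {α : I → ℝ} (hc : Γ.IsCirc α)
    (hcard : (univ.filter (α · ≠ 0)).card ≤ 5) {t : T} (ht : ∀ k, α (Γ.edge t k) ≠ 0) :
    Γ.Short5 α := by
  have hα0 : α ≠ 0 := by
    intro h
    exact ht 0 (by rw [h]; rfl)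
  set a := α (Γ.edge t 0) with ha
  have ha0 : a ≠ 0 := ht 0
  set β : I → ℝ := fun e => α e - a * Γ.tv t e with hβ
  have hαβ : ∀ e, α e = a * Γ.tv t e + β e := fun e => by simp only [hβ]; ring
  have hβc : Γ.IsCirc β := hc.sub_mul (Γ.circ_tv t) a
  have hsub : univ.filter (β · ≠ 0) ⊆ (univ.filter (α · ≠ 0)).erase (Γ.edge t 0) := by
    intro e he
    simp only [mem_filter, mem_univ, true_and, mem_erase] at he ⊢
    constructor
    · rintro rfl
      apply he
      simp only [hβ, tv_edge, mul_one]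
      rw [← ha, sub_self]
    · intro h0
      apply he
      by_cases htv : Γ.tv t e = 0
      · simp only [hβ, h0, htv, mul_zero, sub_zero]
      · exfalso
        have := Γ.eq_of_tv_ne htv
        rw [this] at h0
        exact ht _ h0
  have hcard4 : ((univ.filter (α · ≠ 0)).erase (Γ.edge t 0)).card ≤ 4 := by
    rw [Finset.card_erase_of_mem (by simp [ht])]
    omega
  have hβcard : (univ.filter (β · ≠ 0)).card ≤ 4 := (Finset.card_le_card hsub).trans hcard4
  by_cases hβ0 : β = 0
  · exact Γ.short5_one ha0 (t := t) fun e => by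
      rw [hαβ, hβ0]; simp
  rcases Γ.classify_vec hβc hβcard hβ0 with ⟨s, hs, t', h⟩ | ⟨s, hs, t', t'', k, hne, hk, h⟩
  · have hα : ∀ e, α e = a * Γ.tv t e + s * Γ.tv t' e := fun e => by rw [hαβ, h]
    by_cases hsh : ∃ k, Γ.edge t k = Γ.edge t' k
    · obtain ⟨k, hk⟩ := hsh
      exact Γ.short5_two hk hα hα0
    · exfalso
      push Not at hsh
      set F : Bool × ZMod 3 → I := fun u => if u.1 then Γ.edge t u.2 else Γ.edge t' u.2 with hF
      have hFinj : Function.Injective F := by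
        rintro ⟨b, k⟩ ⟨b', k'⟩ hbb
        simp only [hF] at hbb
        cases b <;> cases b' <;> simp only [if_true, Bool.false_eq_true, if_false] at hbb
        · have := congrArg (fun e => Γ.col (Γ.src e)) hbb
          simp only [Γ.edge_col] at this
          rw [this]
        · have := congrArg (fun e => Γ.col (Γ.src e)) hbb
          simp only [Γ.edge_col] at this
          subst this
          exact absurd hbb.symm (hsh k)
        · have := congrArg (fun e => Γ.col (Γ.src e)) hbb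
          simp only [Γ.edge_col] at this
          subst this
          exact absurd hbb (hsh k)
        · have := congrArg (fun e => Γ.col (Γ.src e)) hbb
          simp only [Γ.edge_col] at this
          rw [this]
      have h6 : (univ.image F).card = 6 := by
        rw [Finset.card_image_of_injective _ hFinj]
        rfl
      have hsub : univ.image F ⊆ univ.filter (α · ≠ 0) := by
        intro e he
        simp only [mem_image, mem_univ, true_and] at he
        obtain ⟨⟨b, k⟩, rfl⟩ := he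
        simp only [mem_filter, mem_univ, true_and, hF]
        cases b
        · simp only [Bool.false_eq_true, if_false]
          rw [hα, Γ.tv_edge_ne (Ne.symm (hsh k)), tv_edge]
          simpa using hs
        · simp only [if_true]
          exact ht k
      have := Finset.card_le_card hsub
      omega
  · have hα : ∀ e, α e = a * Γ.tv t e + s * (Γ.tv t' e - Γ.tv t'' e) := fun e => by
      rw [hαβ, h]
    have hvne : ¬ ∀ e, Γ.tv t' e = Γ.tv t'' e := by
      intro heq
      apply hβ0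
      funext e
      rw [h, heq e, sub_self, mul_zero]
      rfl
    have hek : ∀ j, j ≠ k → Γ.edge t' j ≠ Γ.edge t'' j := fun j hj => Γ.edge_ne_of hk hvne hj
    have hk1 : k + 1 ≠ k := (z3 k).1
    have hk2 : k + 2 ≠ k := by rw [z3_add]; exact (z3 k).2.1
    have hk12 : k + 1 ≠ k + 2 := by rw [z3_add]; exact (z3 k).2.2.2.2
    have hβ' : ∀ j, j ≠ k → β (Γ.edge t' j) ≠ 0 := by
      intro j hj
      rw [h, tv_edge, Γ.tv_edge_ne (t := t'') (hek j hj)]
      simpa using hs
    have hβ'' : ∀ j, j ≠ k → β (Γ.edge t'' j) ≠ 0 := by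
      intro j hj
      rw [h, tv_edge, Γ.tv_edge_ne (t := t') (hek j hj).symm]
      simpa using hs
    have hcolne : ∀ (p q : T) (i j : ZMod 3), i ≠ j → Γ.edge p i ≠ Γ.edge q j := by
      intro p q i j hij heq
      have := congrArg (fun e => Γ.col (Γ.src e)) heq
      simp only [Γ.edge_col] at this
      exact hij this
    have hfour : ({Γ.edge t' (k + 1), Γ.edge t' (k + 2), Γ.edge t'' (k + 1),
        Γ.edge t'' (k + 2)} : Finset I).card = 4 := by
      rw [card_insert_of_notMem, card_insert_of_notMem, card_insert_of_notMem, card_singleton]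
      · simpa using hcolne t'' t'' _ _ hk12
      · simp only [mem_insert, mem_singleton, not_or]
        exact ⟨hcolne _ _ _ _ hk12.symm, hek _ hk2⟩
      · simp only [mem_insert, mem_singleton, not_or]
        exact ⟨hcolne _ _ _ _ hk12, hek _ hk1, hcolne _ _ _ _ hk12⟩
    have hsub4 : ({Γ.edge t' (k + 1), Γ.edge t' (k + 2), Γ.edge t'' (k + 1),
        Γ.edge t'' (k + 2)} : Finset I) ⊆ univ.filter (β · ≠ 0) := by
      intro e he
      simp only [mem_insert, mem_singleton] at he
      simp only [mem_filter, mem_univ, true_and]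
      rcases he with rfl | rfl | rfl | rfl
      · exact hβ' _ hk1
      · exact hβ' _ hk2
      · exact hβ'' _ hk1
      · exact hβ'' _ hk2
    have hβeq : univ.filter (β · ≠ 0) = (univ.filter (α · ≠ 0)).erase (Γ.edge t 0) := by
      apply Finset.eq_of_subset_of_card_le hsub
      have := Finset.card_le_card hsub4
      omega
    have hβt : ∀ j, j ≠ 0 → β (Γ.edge t j) ≠ 0 := by
      intro j hj
      have : Γ.edge t j ∈ (univ.filter (α · ≠ 0)).erase (Γ.edge t 0) := by
        simp only [mem_filter, mem_univ, true_and, mem_erase]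
        exact ⟨hcolne _ _ _ _ hj, ht j⟩
      rw [← hβeq] at this
      simpa using this
    have hmem : ∀ j, j ≠ 0 → (Γ.edge t j = Γ.edge t' j ∨ Γ.edge t j = Γ.edge t'' j) ∧ j ≠ k := by
      intro j hj
      have h1 := hβt j hj
      rw [h] at h1
      constructor
      · by_cases h2 : Γ.tv t' (Γ.edge t j) = 0
        · by_cases h3 : Γ.tv t'' (Γ.edge t j) = 0
          · rw [h2, h3] at h1
            simp at h1
          · have := Γ.eq_of_tv_ne h3
            rw [Γ.edge_col] at this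
            exact Or.inr this
        · have := Γ.eq_of_tv_ne h2
          rw [Γ.edge_col] at this
          exact Or.inl this
      · rintro rfl
        by_cases h2 : Γ.edge t j = Γ.edge t' j
        · rw [h2, tv_edge] at h1
          rw [hk, tv_edge] at h1
          simp at h1
        · rw [Γ.tv_edge_ne (t := t') h2, Γ.tv_edge_ne (t := t'')
            (fun h3 => h2 (h3.trans hk.symm))] at h1
          simp at h1
    have fin' : (∀ e, Γ.tv t e = Γ.tv t' e) → Γ.Short5 α := by
      intro hv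
      have hkk : Γ.edge t k = Γ.edge t'' k := (Γ.edge_eq_of_tv hv k).trans hk
      exact Γ.short5_two (p := a + s) (q := -s) hkk (fun e => by rw [hα, ← hv]; ring) hα0
    have fin'' : (∀ e, Γ.tv t e = Γ.tv t'' e) → Γ.Short5 α := by
      intro hv
      have hkk : Γ.edge t k = Γ.edge t' k := (Γ.edge_eq_of_tv hv k).trans hk.symm
      exact Γ.short5_two (p := a - s) (q := s) hkk (fun e => by rw [hα, ← hv]; ring) hα0
    have m1 := hmem 1 (by decide)
    have m2 := hmem 2 (by decide)
    have hk0 : k = 0 :=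
      (by decide : ∀ k : ZMod 3, (1 : ZMod 3) ≠ k → (2 : ZMod 3) ≠ k → k = 0) k m1.2 m2.2
    subst hk0
    have e12 : (1 + 1 : ZMod 3) = 2 := by decide
    have e20 : (2 + 1 : ZMod 3) = 0 := by decide
    have e01 : (0 + 1 : ZMod 3) = 1 := by decide
    have n0 := Γ.edge_next t 0
    have n2 := Γ.edge_next t 2
    have n0' := Γ.edge_next t' 0
    have n2' := Γ.edge_next t' 2
    have n0'' := Γ.edge_next t'' 0
    have n2'' := Γ.edge_next t'' 2
    rw [e01] at n0 n0' n0''
    rw [e20] at n2 n2' n2''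
    rcases m1.1 with h1 | h1 <;> rcases m2.1 with h2 | h2
    · exact fin' (Γ.tv_congr (k := 1) h1 (by rw [e12]; exact h2))
    · have h0 : Γ.edge t 0 = Γ.edge t' 0 := by
        apply Γ.simple
        · rw [← n2, h2, n2'', hk]
        · rw [n0, h1, n0']
      exact fin' (Γ.tv_congr (k := 0) h0 (by rw [e01]; exact h1))
    · have h0 : Γ.edge t 0 = Γ.edge t' 0 := by
        apply Γ.simple
        · rw [← n2, h2, n2']
        · rw [n0, h1, ← n0'', ← hk]
      exact fin' (Γ.tv_congr (k := 2) h2 (by rw [e20]; exact h0))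
    · exact fin'' (Γ.tv_congr (k := 1) h1 (by rw [e12]; exact h2))

/-- Circulations on at most five edges which contain two consecutive edges with the same
coefficient and with a chord. -/
lemma short5_of_chord {α : I → ℝ} (hc : Γ.IsCirc α)
    (hcard : (univ.filter (α · ≠ 0)).card ≤ 5) {e1 e2 c : I} (h1 : α e1 ≠ 0) (h12 : α e1 = α e2)
    (g1 : Γ.tgt e1 = Γ.src e2) (g2 : Γ.tgt e2 = Γ.src c) (g3 : Γ.tgt c = Γ.src e1) :
    Γ.Short5 α := by
  have hα0 : α ≠ 0 := by
    intro h
    exact h1 (by rw [h]; rfl)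
  obtain ⟨t, k, rfl, rfl, rfl⟩ := Γ.tri e1 e2 c g1 g2 g3
  by_cases ht : ∀ j, α (Γ.edge t j) ≠ 0
  · exact Γ.short5_of_triangle hc hcard ht
  have hzero : α (Γ.edge t (k + 2)) = 0 := by
    push Not at ht
    obtain ⟨j, hj⟩ := ht
    rcases z3_cases k j with rfl | rfl | rfl
    · exact absurd hj h1
    · exact absurd (h12.trans hj) h1
    · exact hj
  set a := α (Γ.edge t k) with ha
  set β : I → ℝ := fun e => α e - a * Γ.tv t e with hβ
  have hαβ : ∀ e, α e = a * Γ.tv t e + β e := fun e => by simp only [hβ]; ring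
  have hβc : Γ.IsCirc β := hc.sub_mul (Γ.circ_tv t) a
  have hne12 : Γ.edge t k ≠ Γ.edge t (k + 1) := by
    intro h
    have := congrArg (fun e => Γ.col (Γ.src e)) h
    simp only [Γ.edge_col] at this
    exact (z3 k).1 this.symm
  have hβcard : (univ.filter (β · ≠ 0)).card ≤ 4 := by
    have hsub : univ.filter (β · ≠ 0) ⊆ insert (Γ.edge t (k + 2))
        (((univ.filter (α · ≠ 0)).erase (Γ.edge t k)).erase (Γ.edge t (k + 1))) := by
      intro e he
      simp only [mem_filter, mem_univ, true_and, mem_erase, mem_insert] at he ⊢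
      by_cases hek : e = Γ.edge t (k + 2)
      · exact Or.inl hek
      right
      refine ⟨?_, ?_, ?_⟩
      · rintro rfl
        apply he
        simp only [hβ, tv_edge, mul_one]
        rw [← h12, sub_self]
      · rintro rfl
        apply he
        simp only [hβ, tv_edge, mul_one]
        rw [← ha, sub_self]
      · intro h0
        apply he
        by_cases htv : Γ.tv t e = 0
        · simp only [hβ, h0, htv, mul_zero, sub_zero]
        · exfalso
          have h2 := Γ.eq_of_tv_ne htv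
          have h3 := z3_cases k (Γ.col (Γ.src e))
          rcases h3 with h3 | h3 | h3 <;> rw [h3] at h2
          · rw [h2] at h0; exact h1 h0
          · rw [h2] at h0; exact h1 (h12.trans h0)
          · exact hek h2
    have h5 := Finset.card_le_card hsub
    have h6 := Finset.card_insert_le (Γ.edge t (k + 2))
        (((univ.filter (α · ≠ 0)).erase (Γ.edge t k)).erase (Γ.edge t (k + 1)))
    rw [Finset.card_erase_of_mem, Finset.card_erase_of_mem] at h6
    · omega
    · simp [← ha, h1]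
    · simp only [mem_erase, mem_filter, mem_univ, true_and]
      exact ⟨hne12.symm, by rw [← h12]; exact h1⟩
  by_cases hβ0 : β = 0
  · exact Γ.short5_one h1 (t := t) fun e => by
      rw [hαβ, hβ0]; simp
  rcases Γ.classify_vec hβc hβcard hβ0 with ⟨s, hs, t', h⟩ | ⟨s, hs, t', t'', j, hne, hk, h⟩
  · have hα : ∀ e, α e = a * Γ.tv t e + s * Γ.tv t' e := fun e => by rw [hαβ, h]
    have hz := hα (Γ.edge t (k + 2))
    rw [hzero, tv_edge, mul_one] at hz
    have htv : Γ.tv t' (Γ.edge t (k + 2)) ≠ 0 := by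
      intro h0
      rw [h0, mul_zero, add_zero] at hz
      exact h1 hz.symm
    have hedge := Γ.eq_of_tv_ne htv
    rw [Γ.edge_col] at hedge
    exact Γ.short5_two hedge hα hα0
  · have hα : ∀ e, α e = a * Γ.tv t e + s * (Γ.tv t' e - Γ.tv t'' e) := fun e => by
      rw [hαβ, h]
    have hz := hα (Γ.edge t (k + 2))
    rw [hzero, tv_edge, mul_one] at hz
    by_cases h2 : Γ.edge t (k + 2) = Γ.edge t' (k + 2)
    · by_cases h3 : Γ.edge t (k + 2) = Γ.edge t'' (k + 2)
      · exfalso
        have e1 : Γ.tv t' (Γ.edge t (k + 2)) = 1 := by rw [h2, tv_edge]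
        have e2 : Γ.tv t'' (Γ.edge t (k + 2)) = 1 := by rw [h3, tv_edge]
        rw [e1, e2] at hz
        apply h1
        linarith
      · have e1 : Γ.tv t' (Γ.edge t (k + 2)) = 1 := by rw [h2, tv_edge]
        rw [e1, Γ.tv_edge_ne (t := t'') h3] at hz
        have hsa : s = -a := by linarith
        exact Γ.short5_three h1 (t := t) (t' := t'') (t'' := t') fun e => by
          rw [hα, hsa]; ring
    · by_cases h3 : Γ.edge t (k + 2) = Γ.edge t'' (k + 2)
      · have e2 : Γ.tv t'' (Γ.edge t (k + 2)) = 1 := by rw [h3, tv_edge]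
        rw [e2, Γ.tv_edge_ne (t := t') h2] at hz
        have hsa : s = a := by linarith
        exact Γ.short5_three h1 (t := t) (t' := t') (t'' := t'') fun e => by
          rw [hα, hsa]; ring
      · exfalso
        rw [Γ.tv_edge_ne (t := t') h2, Γ.tv_edge_ne (t := t'') h3] at hz
        apply h1
        linarith

/-- The support contains a triangle. -/
def HasTri (α : I → ℝ) : Prop := ∃ a b c, α a ≠ 0 ∧ α b ≠ 0 ∧ α c ≠ 0 ∧ Γ.tgt a = Γ.src b ∧
  Γ.tgt b = Γ.src c ∧ Γ.tgt c = Γ.src a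

lemma short5_of_hasTri {α : I → ℝ} (hc : Γ.IsCirc α)
    (hcard : (univ.filter (α · ≠ 0)).card ≤ 5) (h : Γ.HasTri α) : Γ.Short5 α := by
  obtain ⟨a, b, c, ha, hb, hc', h1, h2, h3⟩ := h
  obtain ⟨t, k, rfl, rfl, rfl⟩ := Γ.tri a b c h1 h2 h3
  refine Γ.short5_of_triangle hc hcard (t := t) fun j => ?_
  rcases z3_cases k j with rfl | rfl | rfl
  · exact ha
  · exact hb
  · exact hc'

/-- A vertex with one incoming and one outgoing edge. -/
lemma eq_of_deg {α : I → ℝ} (hc : Γ.IsCirc α) {e e' : I} (h : Γ.tgt e = Γ.src e')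
    (hin : ∀ f, α f ≠ 0 → Γ.tgt f = Γ.tgt e → f = e)
    (hout : ∀ f, α f ≠ 0 → Γ.src f = Γ.src e' → f = e') : α e = α e' := by
  have h1 := hc (Γ.src e')
  have h2 : ∑ f, (if Γ.src f = Γ.src e' then α f else 0) = α e' := by
    rw [Finset.sum_eq_single e']
    · rw [if_pos rfl]
    · intro f _ hf
      split_ifs with hs
      · by_contra h0
        exact hf (hout f h0 hs)
      · rfl
    · intro h; exact absurd (mem_univ _) h
  have h3 : ∑ f, (if Γ.tgt f = Γ.src e' then α f else 0) = α e := by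
    rw [Finset.sum_eq_single e]
    · rw [if_pos h]
    · intro f _ hf
      split_ifs with hs
      · by_contra h0
        exact hf (hin f h0 (hs.trans h.symm))
      · rfl
    · intro h; exact absurd (mem_univ _) h
  rw [h2, h3] at h1
  exact h1.symm

/-- The support edges of a given colour. -/
noncomputable def cls (α : I → ℝ) (k : ZMod 3) : Finset I :=
  univ.filter fun e => α e ≠ 0 ∧ Γ.col (Γ.src e) = k

lemma mem_cls {α : I → ℝ} {k : ZMod 3} {e : I} :
    e ∈ Γ.cls α k ↔ α e ≠ 0 ∧ Γ.col (Γ.src e) = k := by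
  simp [cls]

lemma card_cls (α : I → ℝ) : (univ.filter (α · ≠ 0)).card = ∑ k, (Γ.cls α k).card := by
  rw [Finset.card_eq_sum_card_fiberwise (f := fun e => Γ.col (Γ.src e)) (t := univ)
    (fun _ _ => mem_coe.2 (mem_univ _))]
  refine sum_congr rfl fun k _ => ?_
  congr 1
  ext e
  simp [cls]

lemma sum_z3 (f : ZMod 3 → ℕ) (k : ZMod 3) : ∑ j, f j = f k + f (k + 1) + f (k + 2) := by
  have h3 : (Finset.univ : Finset (ZMod 3)) = {k, k + 1, k + 2} := by
    revert k; decide
  rw [h3, Finset.sum_insert, Finset.sum_insert, Finset.sum_singleton, add_assoc]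
  · rw [mem_singleton, z3_add]; exact (z3 k).2.2.2.2
  · rw [mem_insert, mem_singleton, not_or, z3_add]
    exact ⟨(z3 k).1.symm, (z3 k).2.1.symm⟩

/-- Other edges at the target. -/
lemma other_tgt {α : I → ℝ} (hc : Γ.IsCirc α) {e : I} (he : α e ≠ 0) :
    (∃ f, α f ≠ 0 ∧ f ≠ e ∧ Γ.tgt f = Γ.tgt e ∧ Γ.col (Γ.src f) = Γ.col (Γ.src e)) ∨
    (∃ f, α f ≠ 0 ∧ Γ.src f = Γ.tgt e ∧ Γ.col (Γ.src f) = Γ.col (Γ.src e) + 1) := by
  obtain ⟨f, hf, hne, hi⟩ := Γ.exists_other hc he (x := Γ.tgt e) (Or.inr rfl)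
  rcases hi with hi | hi
  · exact Or.inr ⟨f, hf, hi, by rw [hi, Γ.col_tgt]⟩
  · refine Or.inl ⟨f, hf, hne, hi, ?_⟩
    have := Γ.col_tgt f
    rw [hi, Γ.col_tgt] at this
    exact (add_right_cancel this).symm

/-- Other edges at the source. -/
lemma other_src {α : I → ℝ} (hc : Γ.IsCirc α) {e : I} (he : α e ≠ 0) :
    (∃ f, α f ≠ 0 ∧ f ≠ e ∧ Γ.src f = Γ.src e ∧ Γ.col (Γ.src f) = Γ.col (Γ.src e)) ∨
    (∃ f, α f ≠ 0 ∧ Γ.tgt f = Γ.src e ∧ Γ.col (Γ.src f) = Γ.col (Γ.src e) + 2) := by
  obtain ⟨f, hf, hne, hi⟩ := Γ.exists_other hc he (x := Γ.src e) (Or.inl rfl)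
  rcases hi with hi | hi
  · exact Or.inl ⟨f, hf, hne, hi, by rw [hi]⟩
  · refine Or.inr ⟨f, hf, hi, ?_⟩
    have := Γ.col_tgt f
    rw [hi] at this
    rw [this]
    have h3 : ∀ x : ZMod 3, x = x + 1 + 2 := by decide
    exact h3 _

/-- Every colour occurs in the support. -/
lemma cls_pos {α : I → ℝ} (hc : Γ.IsCirc α) (hcard : (univ.filter (α · ≠ 0)).card = 5)
    (k : ZMod 3) : 0 < (Γ.cls α k).card := by
  by_contra hcon
  have hemp : Γ.cls α k = ∅ := by
    rw [← Finset.card_eq_zero]; omega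
  have hnk : ∀ e, α e ≠ 0 → Γ.col (Γ.src e) = k + 1 ∨ Γ.col (Γ.src e) = k + 2 := by
    intro e he
    rcases z3_cases k (Γ.col (Γ.src e)) with h | h
    · exfalso
      have : e ∈ Γ.cls α k := Γ.mem_cls.2 ⟨he, h⟩
      rw [hemp] at this
      exact absurd this (Finset.notMem_empty _)
    · exact h
  have h12 : k + 1 ≠ k + 2 := by rw [z3_add]; exact (z3 k).2.2.2.2
  set P : I → X := fun e => if Γ.col (Γ.src e) = k + 1 then Γ.tgt e else Γ.src e with hP
  set Q : I → X := fun e => if Γ.col (Γ.src e) = k + 1 then Γ.src e else Γ.tgt e with hQ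
  have hPinc : ∀ e, Γ.Inc e (P e) := by
    intro e
    simp only [hP]
    split_ifs
    · exact Or.inr rfl
    · exact Or.inl rfl
  have hQinc : ∀ e, Γ.Inc e (Q e) := by
    intro e
    simp only [hQ]
    split_ifs
    · exact Or.inl rfl
    · exact Or.inr rfl
  have hPcol : ∀ e, α e ≠ 0 → Γ.col (P e) = k + 2 := by
    intro e he
    simp only [hP]
    split_ifs with h
    · rw [Γ.col_tgt, h, z3_add]
    · rcases hnk e he with h' | h'
      · exact absurd h' h
      · exact h'
  have hQcol : ∀ e, α e ≠ 0 → Γ.col (Q e) ≠ k + 2 := by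
    intro e he
    simp only [hQ]
    split_ifs with h
    · rw [h]; exact h12
    · rcases hnk e he with h' | h'
      · exact absurd h' h
      · rw [Γ.col_tgt, h']
        exact (by decide : ∀ k : ZMod 3, k + 2 + 1 ≠ k + 2) k
  have hends : ∀ e x, Γ.Inc e x → x = P e ∨ x = Q e := by
    intro e x hx
    simp only [hP, hQ]
    split_ifs with h
    · rcases hx with hx | hx
      · exact Or.inr hx.symm
      · exact Or.inl hx.symm
    · rcases hx with hx | hx
      · exact Or.inl hx.symm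
      · exact Or.inr hx.symm
  apply no_five (univ.filter (α · ≠ 0)) hcard P Q
  · intro e he e' he' h1 h2
    have hsrc : Γ.Inc e (Γ.src e') := by
      rcases hends e' (Γ.src e') (Or.inl rfl) with h | h
      · rw [h, ← h1]; exact hPinc e
      · rw [h, ← h2]; exact hQinc e
    have htgt : Γ.Inc e (Γ.tgt e') := by
      rcases hends e' (Γ.tgt e') (Or.inr rfl) with h | h
      · rw [h, ← h1]; exact hPinc e
      · rw [h, ← h2]; exact hQinc e
    exact Γ.par hsrc htgt
  · intro e he
    have he' : α e ≠ 0 := by simpa using he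
    obtain ⟨f, hf, hne, hi⟩ := Γ.exists_other hc he' (hPinc e)
    refine ⟨f, by simpa using hf, hne, ?_⟩
    rcases hends f _ hi with h | h
    · exact h.symm
    · exfalso
      apply hQcol f hf
      rw [← h]
      exact hPcol e he'
  · intro e he
    have he' : α e ≠ 0 := by simpa using he
    obtain ⟨f, hf, hne, hi⟩ := Γ.exists_other hc he' (hQinc e)
    refine ⟨f, by simpa using hf, hne, ?_⟩
    rcases hends f _ hi with h | h
    · exfalso
      apply hQcol e he'
      rw [h]
      exact hPcol f hf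
    · exact h.symm

/-- The case of colour multiplicities `1, 2, 2`. -/
lemma hasTri_of_card {α : I → ℝ} (hc : Γ.IsCirc α) {k : ZMod 3} {f : I}
    (h0 : Γ.cls α k = {f}) (h1 : (Γ.cls α (k + 1)).card = 2)
    (h2 : (Γ.cls α (k + 2)).card = 2) : Γ.HasTri α := by
  have hf : α f ≠ 0 ∧ Γ.col (Γ.src f) = k := by
    rw [← Γ.mem_cls, h0]; exact mem_singleton_self _
  have huniq : ∀ e, α e ≠ 0 → Γ.col (Γ.src e) = k → e = f := by
    intro e he hk
    have : e ∈ Γ.cls α k := Γ.mem_cls.2 ⟨he, hk⟩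
    rw [h0] at this
    exact mem_singleton.1 this
  have z12 : k + 1 + 1 = k + 2 := (z3_add k).symm
  have z13 : k + 1 + 2 = k := (by decide : ∀ k : ZMod 3, k + 1 + 2 = k) k
  have z23 : k + 2 + 1 = k := (by decide : ∀ k : ZMod 3, k + 2 + 1 = k) k
  have z22 : k + 2 + 2 = k + 1 := (by decide : ∀ k : ZMod 3, k + 2 + 2 = k + 1) k
  -- all edges of colour `k + 1` start at the end of `f`
  obtain ⟨g, hg, hgs, hgc⟩ : ∃ g, α g ≠ 0 ∧ Γ.src g = Γ.tgt f ∧ Γ.col (Γ.src g) = k + 1 := by
    rcases Γ.other_tgt hc hf.1 with ⟨g, hg, hne, _, hcg⟩ | ⟨g, hg, hs, hcg⟩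
    · exact absurd (huniq g hg (hcg.trans hf.2)) hne
    · exact ⟨g, hg, hs, by rw [hcg, hf.2]⟩
  have hG : ∀ g', α g' ≠ 0 → Γ.col (Γ.src g') = k + 1 → Γ.src g' = Γ.tgt f := by
    intro g' hg' hc'
    by_contra hne
    rcases Γ.other_src hc hg' with ⟨g'', hg'', hne', hs, hcg⟩ | ⟨e, he, ht, hce⟩
    · have hsub : ({g, g', g''} : Finset I) ⊆ Γ.cls α (k + 1) := by
        intro x hx
        simp only [mem_insert, mem_singleton] at hx
        rcases hx with rfl | rfl | rfl
        · exact Γ.mem_cls.2 ⟨hg, hgc⟩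
        · exact Γ.mem_cls.2 ⟨hg', hc'⟩
        · exact Γ.mem_cls.2 ⟨hg'', hcg.trans hc'⟩
      have hn1 : g ≠ g' := by rintro rfl; exact hne hgs
      have hn2 : g ≠ g'' := by rintro rfl; exact hne (hs.symm.trans hgs)
      have h3 : ({g, g', g''} : Finset I).card = 3 := by
        rw [card_insert_of_notMem, card_insert_of_notMem, card_singleton]
        · simpa using hne'.symm
        · simp [hn1, hn2]
      have := Finset.card_le_card hsub
      omega
    · rw [hc', z13] at hce
      have := huniq e he hce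
      subst this
      exact hne ht.symm
  obtain ⟨h, hh, hht, hhc⟩ : ∃ h, α h ≠ 0 ∧ Γ.tgt h = Γ.src f ∧ Γ.col (Γ.src h) = k + 2 := by
    rcases Γ.other_src hc hf.1 with ⟨g, hg, hne, _, hcg⟩ | ⟨g, hg, hs, hcg⟩
    · exact absurd (huniq g hg (hcg.trans hf.2)) hne
    · exact ⟨g, hg, hs, by rw [hcg, hf.2]⟩
  have hH : ∀ g', α g' ≠ 0 → Γ.col (Γ.src g') = k + 2 → Γ.tgt g' = Γ.src f := by
    intro g' hg' hc'
    by_contra hne
    rcases Γ.other_tgt hc hg' with ⟨g'', hg'', hne', hs, hcg⟩ | ⟨e, he, ht, hce⟩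
    · have hsub : ({h, g', g''} : Finset I) ⊆ Γ.cls α (k + 2) := by
        intro x hx
        simp only [mem_insert, mem_singleton] at hx
        rcases hx with rfl | rfl | rfl
        · exact Γ.mem_cls.2 ⟨hh, hhc⟩
        · exact Γ.mem_cls.2 ⟨hg', hc'⟩
        · exact Γ.mem_cls.2 ⟨hg'', hcg.trans hc'⟩
      have hn1 : h ≠ g' := by rintro rfl; exact hne hht
      have hn2 : h ≠ g'' := by rintro rfl; exact hne (hs.symm.trans hht)
      have h3 : ({h, g', g''} : Finset I).card = 3 := by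
        rw [card_insert_of_notMem, card_insert_of_notMem, card_singleton]
        · simpa using hne'.symm
        · simp [hn1, hn2]
      have := Finset.card_le_card hsub
      omega
    · rw [hc', z23] at hce
      have := huniq e he hce
      subst this
      exact hne ht.symm
  rcases Γ.other_tgt hc hg with ⟨g', hg', hne, ht, hcg⟩ | ⟨e, he, hs, hce⟩
  · exfalso
    apply hne
    exact Γ.simple _ _ ((hG g' hg' (hcg.trans hgc)).trans hgs.symm) ht
  · have hce' : Γ.col (Γ.src e) = k + 2 := by rw [hce, hgc, z12]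
    exact ⟨f, g, e, hf.1, hg, he, hgs.symm, hs.symm, hH e he hce'⟩

/-- The case of colour multiplicities `3, 1, 1`. -/
lemma tri_or_chord {α : I → ℝ} (hc : Γ.IsCirc α) (hP : Γ.Penta) {k : ZMod 3} {f g : I}
    (h0 : (Γ.cls α k).card = 3) (h1 : Γ.cls α (k + 1) = {f})
    (h2 : Γ.cls α (k + 2) = {g}) : Γ.HasTri α ∨
    ∃ a b c, α a ≠ 0 ∧ α a = α b ∧ Γ.tgt a = Γ.src b ∧ Γ.tgt b = Γ.src c ∧
      Γ.tgt c = Γ.src a := by
  by_contra hcon
  push Not at hcon
  obtain ⟨hnt, hnc⟩ := hcon
  have hf : α f ≠ 0 ∧ Γ.col (Γ.src f) = k + 1 := by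
    rw [← Γ.mem_cls, h1]; exact mem_singleton_self _
  have hg : α g ≠ 0 ∧ Γ.col (Γ.src g) = k + 2 := by
    rw [← Γ.mem_cls, h2]; exact mem_singleton_self _
  have huf : ∀ e, α e ≠ 0 → Γ.col (Γ.src e) = k + 1 → e = f := by
    intro e he hk
    have : e ∈ Γ.cls α (k + 1) := Γ.mem_cls.2 ⟨he, hk⟩
    rw [h1] at this
    exact mem_singleton.1 this
  have hug : ∀ e, α e ≠ 0 → Γ.col (Γ.src e) = k + 2 → e = g := by
    intro e he hk
    have : e ∈ Γ.cls α (k + 2) := Γ.mem_cls.2 ⟨he, hk⟩
    rw [h2] at this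
    exact mem_singleton.1 this
  have z12 : k + 1 + 1 = k + 2 := (z3_add k).symm
  have z13 : k + 1 + 2 = k := (by decide : ∀ k : ZMod 3, k + 1 + 2 = k) k
  have z23 : k + 2 + 1 = k := (by decide : ∀ k : ZMod 3, k + 2 + 1 = k) k
  -- the path `f, g`
  have hfg : Γ.tgt f = Γ.src g := by
    rcases Γ.other_tgt hc hf.1 with ⟨e, he, hne, _, hce⟩ | ⟨e, he, hs, hce⟩
    · exact absurd (huf e he (hce.trans hf.2)) hne
    · have := hug e he (by rw [hce, hf.2, z12])
      subst this
      exact hs.symm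
  -- the edge before `f`
  obtain ⟨e1, he1, ht1, hc1⟩ : ∃ e1, α e1 ≠ 0 ∧ Γ.tgt e1 = Γ.src f ∧ Γ.col (Γ.src e1) = k := by
    rcases Γ.other_src hc hf.1 with ⟨e, he, hne, _, hce⟩ | ⟨e, he, hs, hce⟩
    · exact absurd (huf e he (hce.trans hf.2)) hne
    · exact ⟨e, he, hs, by rw [hce, hf.2, z13]⟩
  -- the edge after `g`
  obtain ⟨e4, he4, hs4, hc4⟩ : ∃ e4, α e4 ≠ 0 ∧ Γ.src e4 = Γ.tgt g ∧ Γ.col (Γ.src e4) = k := by
    rcases Γ.other_tgt hc hg.1 with ⟨e, he, hne, _, hce⟩ | ⟨e, he, hs, hce⟩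
    · exact absurd (hug e he (hce.trans hg.2)) hne
    · exact ⟨e, he, hs, by rw [hce, hg.2, z23]⟩
  have nt : ∀ e, α e ≠ 0 → Γ.tgt e = Γ.src f → Γ.tgt g = Γ.src e → False := by
    intro e he h3 h4
    exact hnt ⟨e, f, g, he, hf.1, hg.1, h3, hfg, h4⟩
  have n14 : e1 ≠ e4 := by
    rintro rfl
    exact nt e1 he1 ht1 hs4.symm
  -- the third edge of colour `k`
  obtain ⟨e5, he5, n51, hs5, hc5⟩ : ∃ e5, α e5 ≠ 0 ∧ e5 ≠ e1 ∧ Γ.src e5 = Γ.src e1 ∧
      Γ.col (Γ.src e5) = k := by
    rcases Γ.other_src hc he1 with ⟨e, he, hne, hs, hce⟩ | ⟨e, he, ht, hce⟩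
    · exact ⟨e, he, hne, hs, hce.trans hc1⟩
    · have := hug e he (by rw [hce, hc1])
      subst this
      exact (nt e1 he1 ht1 ht).elim
  have n54 : e5 ≠ e4 := by
    rintro rfl
    exact nt e1 he1 ht1 (hs4.symm.trans hs5)
  have hall : ∀ e, α e ≠ 0 → Γ.col (Γ.src e) = k → e = e1 ∨ e = e4 ∨ e = e5 := by
    intro e he hce
    by_contra hcon
    push Not at hcon
    obtain ⟨m1, m4, m5⟩ := hcon
    have hsub : ({e, e1, e4, e5} : Finset I) ⊆ Γ.cls α k := by
      intro x hx
      simp only [mem_insert, mem_singleton] at hx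
      rcases hx with rfl | rfl | rfl | rfl
      · exact Γ.mem_cls.2 ⟨he, hce⟩
      · exact Γ.mem_cls.2 ⟨he1, hc1⟩
      · exact Γ.mem_cls.2 ⟨he4, hc4⟩
      · exact Γ.mem_cls.2 ⟨he5, hc5⟩
    have h3 : ({e, e1, e4, e5} : Finset I).card = 4 := by
      rw [card_insert_of_notMem, card_insert_of_notMem, card_insert_of_notMem, card_singleton]
      · simpa using n54.symm
      · simp [n14, n51.symm]
      · simp [m1, m4, m5]
    have := Finset.card_le_card hsub
    omega
  have ht5 : Γ.tgt e5 = Γ.tgt e4 := by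
    rcases Γ.other_tgt hc he4 with ⟨e, he, hne, ht, hce⟩ | ⟨e, he, hs, hce⟩
    · rcases hall e he (hce.trans hc4) with rfl | rfl | rfl
      · exact (nt e4 he4 (ht.symm.trans ht1) hs4.symm).elim
      · exact absurd rfl hne
      · exact ht
    · have := huf e he (by rw [hce, hc4])
      subst this
      exact (nt e4 he4 hs.symm hs4.symm).elim
  rcases hP g e4 e5 e1 f hs4.symm ht5.symm hs5 ht1 hfg with h | h | ⟨c, hcs, hct⟩ | ⟨c, hcs, hct⟩
  · exact n54 h.symm
  · exact n51 h
  · -- chord for `g, e4`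
    refine hnc g e4 c hg.1 ?_ hs4.symm hcs.symm hct
    refine Γ.eq_of_deg hc hs4.symm ?_ ?_
    · intro e he ht
      refine hug e he ?_
      have := Γ.col_tgt e
      rw [ht, Γ.col_tgt] at this
      rw [← add_right_cancel this]
      exact hg.2
    · intro e he hs
      rcases hall e he (by rw [hs]; exact hc4) with rfl | rfl | rfl
      · exact (nt e he ht1 (hs4.symm.trans hs.symm)).elim
      · rfl
      · exact (nt e1 he1 ht1 (hs4.symm.trans (hs.symm.trans hs5))).elim
  · -- chord for `e1, f`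
    refine hnc e1 f c he1 ?_ ht1 (hfg.trans hcs.symm) (hct.trans hs5)
    refine Γ.eq_of_deg hc ht1 ?_ ?_
    · intro e he ht
      have hce : Γ.col (Γ.src e) = k := by
        have := Γ.col_tgt e
        rw [ht, Γ.col_tgt] at this
        rw [← add_right_cancel this]
        exact hc1
      rcases hall e he hce with rfl | rfl | rfl
      · rfl
      · exact (nt e he (ht.trans ht1) hs4.symm).elim
      · exact (nt e4 he4 (ht5.symm.trans (ht.trans ht1)) hs4.symm).elim
    · intro e he hs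
      exact huf e he (by rw [hs]; exact hf.2)

/-- Classification of the circulations with at most five edges. -/
theorem classify5 (hP : Γ.Penta) {α : I → ℝ} (hc : Γ.IsCirc α)
    (hcard : (univ.filter (α · ≠ 0)).card ≤ 5) (h0 : α ≠ 0) : Γ.Short5 α := by
  by_cases h4 : (univ.filter (α · ≠ 0)).card ≤ 4
  · rcases Γ.classify_vec hc h4 h0 with ⟨s, hs, t, h⟩ | ⟨s, hs, t, t', k, hne, hk, h⟩
    · exact Γ.short5_one hs h
    · exact Γ.short5_two (p := s) (q := -s) hk (fun e => by rw [h]; ring) h0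
  have h5 : (univ.filter (α · ≠ 0)).card = 5 := by omega
  have hpos := Γ.cls_pos hc h5
  have hsum := Γ.card_cls α
  rw [h5] at hsum
  -- a colour with one edge
  have fin1 : ∀ k, (Γ.cls α k).card = 1 → (Γ.cls α (k + 1)).card = 2 →
      (Γ.cls α (k + 2)).card = 2 → Γ.Short5 α := by
    intro k a b c
    obtain ⟨f, hf⟩ := Finset.card_eq_one.1 a
    exact Γ.short5_of_hasTri hc hcard (Γ.hasTri_of_card hc hf b c)
  have fin3 : ∀ k, (Γ.cls α k).card = 3 → (Γ.cls α (k + 1)).card = 1 →
      (Γ.cls α (k + 2)).card = 1 → Γ.Short5 α := by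
    intro k a b c
    obtain ⟨f, hf⟩ := Finset.card_eq_one.1 b
    obtain ⟨g, hg⟩ := Finset.card_eq_one.1 c
    rcases Γ.tri_or_chord hc hP a hf hg with h | ⟨x, y, z, hx, hxy, g1, g2, g3⟩
    · exact Γ.short5_of_hasTri hc hcard h
    · exact Γ.short5_of_chord hc hcard hx hxy g1 g2 g3
  have s0 := Γ.card_cls α
  rw [h5, sum_z3 _ 0, zero_add, zero_add] at s0
  have p0 := hpos 0
  have p1 := hpos 1
  have p2 := hpos 2
  have e12 : (1 + 1 : ZMod 3) = 2 := by decide
  have e13 : (1 + 2 : ZMod 3) = 0 := by decide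
  have e21 : (2 + 1 : ZMod 3) = 0 := by decide
  have e22 : (2 + 2 : ZMod 3) = 1 := by decide
  have a0 := fin1 0
  have a1 := fin1 1
  have a2 := fin1 2
  have b0 := fin3 0
  have b1 := fin3 1
  have b2 := fin3 2
  rw [zero_add, zero_add] at a0 b0
  rw [e12, e13] at a1 b1
  rw [e21, e22] at a2 b2
  generalize (Γ.cls α 0).card = n0 at *
  generalize (Γ.cls α 1).card = n1 at *
  generalize (Γ.cls α 2).card = n2 at *
  have hn0 : n0 ≤ 3 := by omega
  have hn1 : n1 ≤ 3 := by omega
  have hn2 : n2 ≤ 3 := by omega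
  interval_cases n0 <;> interval_cases n1 <;> first
    | exact a0 rfl rfl (by omega)
    | exact a1 rfl (by omega) rfl
    | exact a2 (by omega) rfl rfl
    | exact b0 rfl rfl (by omega)
    | exact b1 rfl (by omega) rfl
    | exact b2 (by omega) rfl rfl
    | (exfalso; omega)

end TGraph

end Pool.Agent.FourLin
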