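import Pool.Agent.FourLin.Defs

/-!
Linear decision trees in which the coefficients of every question are separated.
-/

namespace Pool.Agent.FourLin

/-- The absolute values of any two entries of `c` are equal or differ by a factor at least
`1 + 1 / C`. For instance, this holds if all entries are integers of absolute value at most
`C + 1`. -/
def Separated {ι : Type*} (C : ℝ) (c : ι → ℝ) : Prop :=
  ∀ i j, |c i| < |c j| → (C + 1) * |c i| ≤ C * |c j|

/-- In every question of the tree the coefficients of the input numbers are separated. -/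
inductive LTree.IsSeparated {n : ℕ} (C : ℝ) : LTree n → Prop
  | leaf (r : Bool) : IsSeparated C (leaf r)
  | node (c : Fin n → ℝ) (b : ℝ) (next : SignType → LTree n) :
      Separated C c → (∀ t, IsSeparated C (next t)) → IsSeparated C (node c b next)

/-- Integers of absolute value at most `C + 1` are separated. -/
lemma separated_of_int {ι : Type*} {C : ℝ} (hC : 0 ≤ C) {c : ι → ℝ}
    (h : ∀ i, ∃ z : ℤ, c i = z ∧ |c i| ≤ C + 1) : Separated C c := by
  intro i j hij
  obtain ⟨y, hy, -⟩ := h i
  obtain ⟨z, hz, hzC⟩ := h j
  rw [hy, hz] at hij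
  rw [hz] at hzC
  rw [hy, hz]
  have h1 : |y| < |z| := by exact_mod_cast hij
  have h2 : |y| + 1 ≤ |z| := h1
  have h3 : |(y : ℝ)| + 1 ≤ |(z : ℝ)| := by exact_mod_cast h2
  nlinarith [abs_nonneg (y : ℝ)]

end Pool.Agent.FourLin
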