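import Pool.Agent.FourLin.Adv2
import Pool.Agent.FiveLin.Circ5
import Pool.Agent.FiveLin.Defs5

/-!
Perturbations for circulations with at most five edges.
-/

set_option linter.unusedSectionVars false
set_option linter.unusedSimpArgs false

namespace Pool.Agent.FourLin

open Finset

/-- Perturbations with heights: at `w` the triangle `t` has the value `D * H t`; `wt t` collapses the
triangle `t` and changes the value of every other triangle by at most `H t`. -/
structure Pert5 {X I T : Type*} (Γ : TGraph X I T) (C : ℝ) where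
  w : I → ℝ
  wt : T → I → ℝ
  H : T → ℝ
  N : ℝ
  P : ℝ
  D : ℝ
  one_le_C : 1 ≤ C
  zero_le_P : 0 ≤ P
  C_mul_P : C * P ≤ N
  lt_D : 3 * (N + P) < D
  le_H : ∀ t, N + 1 ≤ H t
  H_le : ∀ t, H t ≤ N + P
  diff : ∀ t t' k, t ≠ t' → Γ.edge t k = Γ.edge t' k → 1 ≤ |H t - H t'|
  tau_w : ∀ t, Γ.tau t w = D * H t
  zero : ∀ t, Γ.tau t (wt t) = 0
  tau_wt : ∀ t t', t' ≠ t → |Γ.tau t' (wt t) - D * H t'| ≤ H t

variable {X I T : Type*} [DecidableEq X] [Fintype I] [DecidableEq I] [Fintype T]
variable {Γ : TGraph X I T} {C : ℝ}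

namespace Pert5

variable (P : Pert5 Γ C)

lemma P_le_N : P.P ≤ P.N := by
  have h1 := P.one_le_C
  have h2 := P.zero_le_P
  have h3 := P.C_mul_P
  nlinarith

lemma D_pos : 0 < P.D := by
  have h1 := P.lt_D
  have h2 := P.zero_le_P
  have h3 := P.P_le_N
  linarith

/-- main estimate for two triangles with a common edge -/
lemma two {s s' a b : ℝ} (ha : P.N + 1 ≤ a) (ha' : a ≤ P.N + P.P) (hb : P.N + 1 ≤ b)
    (hb' : b ≤ P.N + P.P) (hab : 1 ≤ |a - b|) (hm : |s| = |s'| ∨ (C + 1) * |s'| ≤ C * |s|) :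
    |s| ≤ |s * a + s' * b| := by
  have hC := P.one_le_C
  have hP0 := P.zero_le_P
  have hCP := P.C_mul_P
  have hN0 : 0 ≤ P.N := le_trans hP0 P.P_le_N
  rcases hm with h | h
  · rcases abs_eq_abs.1 h with h1 | h1
    · rw [h1, ← mul_add, abs_mul]
      have : 1 ≤ |a + b| := by
        rw [abs_of_pos (by linarith)]
        linarith
      nlinarith [abs_nonneg s']
    · rw [h1, neg_mul, neg_add_eq_sub, ← mul_sub, abs_mul, abs_neg, abs_sub_comm b a]
      nlinarith [abs_nonneg s']
  · have h1 : |s| * a - |s'| * b ≤ |s * a + s' * b| := by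
      have e1 : |s| * a = |s * a| := by rw [abs_mul, abs_of_nonneg (by linarith : (0 : ℝ) ≤ a)]
      have e2 : |s'| * b = |s' * b| := by rw [abs_mul, abs_of_nonneg (by linarith : (0 : ℝ) ≤ b)]
      rw [e1, e2]
      have := abs_sub_abs_le_abs_sub (s * a) (-(s' * b))
      rw [abs_neg, sub_neg_eq_add] at this
      exact this
    refine le_trans ?_ h1
    have hs := abs_nonneg s
    have hs' := abs_nonneg s'
    -- multiply by `C + 1`
    have h2 : (C + 1) * |s| ≤ (C + 1) * (|s| * a - |s'| * b) := by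
      have h3 : (C + 1) * (|s'| * b) ≤ C * |s| * (P.N + P.P) := by
        calc (C + 1) * (|s'| * b) = ((C + 1) * |s'|) * b := by ring
          _ ≤ (C * |s|) * b := mul_le_mul_of_nonneg_right h (by linarith)
          _ ≤ C * |s| * (P.N + P.P) := mul_le_mul_of_nonneg_left hb' (by positivity)
      have h4 : (C + 1) * (|s| * (P.N + 1)) ≤ (C + 1) * (|s| * a) := by
        apply mul_le_mul_of_nonneg_left _ (by linarith)
        exact mul_le_mul_of_nonneg_left ha hs
      have h5 : |s| * (C * P.P) ≤ |s| * P.N := mul_le_mul_of_nonneg_left hCP hs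
      nlinarith
    exact le_of_mul_le_mul_left h2 (by linarith)

lemma separated_pair {α : I → ℝ} (hm : Separated C α) {s s' : ℝ} (h1 : ∃ e, |α e| = |s|)
    (h2 : ∃ e, |α e| = |s'|) (hle : |s'| ≤ |s|) : |s| = |s'| ∨ (C + 1) * |s'| ≤ C * |s| := by
  obtain ⟨e, he⟩ := h1
  obtain ⟨e', he'⟩ := h2
  rcases hle.lt_or_eq with h | h
  · right
    rw [← he, ← he']
    apply hm
    rw [he, he']
    exact h
  · left
    exact h.symm

/-- the value at `w` and the change at `wt t` for a short circulation -/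
lemma estimate (hΓ : Γ.Penta) {α : I → ℝ} (hc : Γ.IsCirc α)
    (hcard : (univ.filter (α · ≠ 0)).card ≤ 5) (hm : Separated C α) (h0 : α ≠ 0) :
    ∑ e, α e * P.w e ≠ 0 ∧ ∃ t1 t2 t3 : T, ∀ t, t ≠ t1 → t ≠ t2 → t ≠ t3 →
      |∑ e, α e * P.wt t e - ∑ e, α e * P.w e| < |∑ e, α e * P.w e| := by
  have hD := P.D_pos
  have hDN := P.lt_D
  have hPN := P.P_le_N
  have hP0 := P.zero_le_P
  rcases Γ.classify5 hΓ hc hcard h0 with ⟨s, hs, t0, h⟩ |
    ⟨s, s', hs, hs', hes, hes', t1, t2, k, hne, hk, h⟩ | ⟨s, hs, t1, t2, t3, h⟩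
  · have e1 : ∑ e, α e * P.w e = s * (P.D * P.H t0) := by rw [h, P.tau_w]
    have hs1 : 0 < |s| := abs_pos.2 hs
    have h1 := P.le_H t0
    have h2 : P.D ≤ P.D * P.H t0 := by nlinarith
    have h3 : |∑ e, α e * P.w e| = |s| * (P.D * P.H t0) := by
      rw [e1, abs_mul, abs_of_pos (by linarith : 0 < P.D * P.H t0)]
    constructor
    · rw [e1]
      exact mul_ne_zero hs (by linarith : P.D * P.H t0 ≠ 0)
    · refine ⟨t0, t0, t0, fun t ht _ _ => ?_⟩
      rw [h3, e1, h, ← mul_sub, abs_mul]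
      apply mul_lt_mul_of_pos_left _ hs1
      have := P.tau_wt t t0 (Ne.symm ht)
      have := P.H_le t
      linarith
  · have key : |s| ≤ |s * P.H t1 + s' * P.H t2| ∧ |s'| ≤ |s * P.H t1 + s' * P.H t2| := by
      rcases le_total |s'| |s| with hle | hle
      · have := P.two (P.le_H t1) (P.H_le t1) (P.le_H t2) (P.H_le t2) (P.diff _ _ _ hne hk)
          (separated_pair hm hes hes' hle)
        exact ⟨this, le_trans hle this⟩
      · have := P.two (P.le_H t2) (P.H_le t2) (P.le_H t1) (P.H_le t1)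
          (P.diff _ _ _ hne.symm hk.symm) (separated_pair hm hes' hes hle)
        rw [add_comm] at this
        exact ⟨le_trans hle this, this⟩
    have e1 : ∑ e, α e * P.w e = P.D * (s * P.H t1 + s' * P.H t2) := by
      rw [h, P.tau_w, P.tau_w]
      ring
    have hs1 : 0 < |s| := abs_pos.2 hs
    have hs2 : 0 < |s'| := abs_pos.2 hs'
    have h3 : |∑ e, α e * P.w e| = P.D * |s * P.H t1 + s' * P.H t2| := by
      rw [e1, abs_mul, abs_of_pos hD]
    constructor
    · rw [e1]
      exact mul_ne_zero hD.ne' (abs_pos.1 (lt_of_lt_of_le hs1 key.1))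
    · refine ⟨t1, t2, t2, fun t ht1 ht2 _ => ?_⟩
      have g1 := P.tau_wt t t1 (Ne.symm ht1)
      have g2 := P.tau_wt t t2 (Ne.symm ht2)
      have g3 := P.H_le t
      have e2 : ∑ e, α e * P.wt t e - ∑ e, α e * P.w e =
          s * (Γ.tau t1 (P.wt t) - P.D * P.H t1) + s' * (Γ.tau t2 (P.wt t) - P.D * P.H t2) := by
        rw [e1, h]
        ring
      rw [h3, e2]
      calc |s * (Γ.tau t1 (P.wt t) - P.D * P.H t1) + s' * (Γ.tau t2 (P.wt t) - P.D * P.H t2)|
          ≤ |s| * |Γ.tau t1 (P.wt t) - P.D * P.H t1| +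
            |s'| * |Γ.tau t2 (P.wt t) - P.D * P.H t2| := by
            rw [← abs_mul, ← abs_mul]
            exact abs_add_le _ _
        _ ≤ |s * P.H t1 + s' * P.H t2| * (P.N + P.P) +
            |s * P.H t1 + s' * P.H t2| * (P.N + P.P) := by
            apply add_le_add
            · exact mul_le_mul key.1 (g1.trans g3) (abs_nonneg _) (abs_nonneg _)
            · exact mul_le_mul key.2 (g2.trans g3) (abs_nonneg _) (abs_nonneg _)
        _ = |s * P.H t1 + s' * P.H t2| * (2 * (P.N + P.P)) := by ring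
        _ < |s * P.H t1 + s' * P.H t2| * P.D := by
            apply mul_lt_mul_of_pos_left _ (lt_of_lt_of_le hs1 key.1)
            linarith
        _ = P.D * |s * P.H t1 + s' * P.H t2| := mul_comm _ _
  · have hs1 : 0 < |s| := abs_pos.2 hs
    have e1 : ∑ e, α e * P.w e = s * (P.D * (P.H t1 + P.H t2 - P.H t3)) := by
      rw [h, P.tau_w, P.tau_w, P.tau_w]
      ring
    have h1 := P.le_H t1
    have h2 := P.le_H t2
    have h3' := P.H_le t3
    have h4 : P.D ≤ P.D * (P.H t1 + P.H t2 - P.H t3) := by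
      have : 1 ≤ P.H t1 + P.H t2 - P.H t3 := by linarith
      nlinarith
    have h3 : |∑ e, α e * P.w e| = |s| * (P.D * (P.H t1 + P.H t2 - P.H t3)) := by
      rw [e1, abs_mul, abs_of_pos (by linarith : 0 < P.D * (P.H t1 + P.H t2 - P.H t3))]
    constructor
    · rw [e1]
      exact mul_ne_zero hs (by linarith : P.D * (P.H t1 + P.H t2 - P.H t3) ≠ 0)
    · refine ⟨t1, t2, t3, fun t ht1 ht2 ht3 => ?_⟩
      have g1 := P.tau_wt t t1 (Ne.symm ht1)
      have g2 := P.tau_wt t t2 (Ne.symm ht2)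
      have g3 := P.tau_wt t t3 (Ne.symm ht3)
      have g4 := P.H_le t
      rw [h3, e1, h, ← mul_sub, abs_mul]
      apply mul_lt_mul_of_pos_left _ hs1
      refine lt_of_lt_of_le ?_ h4
      refine lt_of_le_of_lt ?_ hDN
      rw [abs_le] at g1 g2 g3 ⊢
      constructor <;> nlinarith
  

open Classical in
lemma card_sign_ne (hΓ : Γ.Penta) {α : I → ℝ} (hc : Γ.IsCirc α)
    (hcard : (univ.filter (α · ≠ 0)).card ≤ 5) (hm : Separated C α) :
    (univ.filter fun t => SignType.sign (∑ e, α e * P.wt t e) ≠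
      SignType.sign (∑ e, α e * P.w e)).card ≤ 3 := by
  by_cases h0 : α = 0
  · subst h0
    simp
  obtain ⟨-, t1, t2, t3, h⟩ := P.estimate hΓ hc hcard hm h0
  calc _ ≤ ({t1, t2, t3} : Finset T).card := by
        apply Finset.card_le_card
        intro t ht
        simp only [mem_filter, mem_univ, true_and] at ht
        by_contra hcon
        simp only [mem_insert, mem_singleton, not_or] at hcon
        apply ht
        have h1 := sign_add_of_lt (h t hcon.1 hcon.2.1 hcon.2.2)
        rw [add_sub_cancel] at h1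
        exact h1
    _ ≤ 3 := Finset.card_le_three

lemma ne_zero (hΓ : Γ.Penta) {α : I → ℝ} (hc : Γ.IsCirc α)
    (hcard : (univ.filter (α · ≠ 0)).card ≤ 5) (hm : Separated C α) (h0 : α ≠ 0) :
    ∑ e, α e * P.w e ≠ 0 := (P.estimate hΓ hc hcard hm h0).1

end Pert5

end Pool.Agent.FourLin
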