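import Pool.Agent.FourLin.AdvZ
import Pool.Agent.FiveLin.Pert5

/-!
The adversary argument for five-sparse questions with separated coefficients and integer inputs.
-/

set_option linter.unusedSectionVars false
set_option linter.unusedSimpArgs false

namespace Pool.Agent.FourLin

open Finset Filter Topology

variable {X I T : Type*} [DecidableEq X] [Fintype I] [DecidableEq I] [Fintype T]
variable {Γ : TGraph X I T} {C : ℝ}

lemma separated_of_abs {ι : Type*} {c : ι → ℝ} (h : ∀ i, |c i| = 0 ∨ |c i| = 1) (hC : 0 ≤ C) :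
    Separated C c := by
  intro i j hij
  have h1 : |c i| = 0 := by
    rcases h i with hi | hi
    · exact hi
    · rcases h j with hj | hj <;> rw [hi, hj] at hij <;> norm_num at hij
  rw [h1, mul_zero]
  exact mul_nonneg hC (abs_nonneg _)

lemma separated_mul_sg {σ : ℝ} (hσ : σ = 1 ∨ σ = -1) {n : ℕ} (emb : I ↪ Fin n) {c : Fin n → ℝ}
    (h : Separated C c) : Separated C (fun e => c (emb e) * sg Γ σ e) := by
  have h1 : ∀ e, |c (emb e) * sg Γ σ e| = |c (emb e)| := by
    intro e
    rw [abs_mul]
    have : |sg Γ σ e| = 1 := by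
      unfold sg
      rcases hσ with rfl | rfl <;> split_ifs <;> simp
    rw [this, mul_one]
  intro e e' hee
  simp only [h1] at hee ⊢
  exact h _ _ hee

open Classical in
/-- The inputs are `x = N * (potential differences, dummies) + M * w` with generic integer
potentials and dummies, `M` larger than all `|b|`, and `N` large against `M`. -/
theorem adversary5 (P : Pert5 Γ C) (hΓ : Γ.Penta) (hw : ∀ e, ∃ z : ℤ, P.w e = z)
    (hwt : ∀ t e, ∃ z : ℤ, P.wt t e = z) {n : ℕ} (emb : I ↪ Fin n) {σ : ℝ}
    (hσ : σ = 1 ∨ σ = -1) (Q : Set ((Fin n → ℝ) × ℝ)) (hQ : Q.Finite)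
    (hQ5 : ∀ q ∈ Q, {i | q.1 i ≠ 0}.ncard ≤ 5) (hQm : ∀ q ∈ Q, Separated C q.1) :
    ∃ (x : Fin n → ℤ) (y : T → Fin n → ℤ), Function.Injective x ∧
      (∀ t, Function.Injective (y t)) ∧ ¬ HasSol σ (fun i => (x i : ℝ)) ∧
      (∀ t, HasSol σ (fun i => (y t i : ℝ))) ∧
      ∀ q ∈ Q, (univ.filter fun t => SignType.sign (∑ i, q.1 i * (y t i : ℝ) + q.2) ≠
        SignType.sign (∑ i, q.1 i * (x i : ℝ) + q.2)).card ≤ 3 := by
  have hσ2 : σ * σ = 1 := by rcases hσ with rfl | rfl <;> norm_num
  -- the forms we care about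
  set F3 : Fin n × Fin n × Fin n → (Fin n → ℝ) × ℝ :=
    fun i => (Pi.single i.1 1 + Pi.single i.2.1 1 - σ • Pi.single i.2.2 1, 0) with hF3
  set F2 : Fin n × Fin n → (Fin n → ℝ) × ℝ :=
    fun i => (Pi.single i.1 1 - Pi.single i.2 1, 0) with hF2
  set S : Set ((Fin n → ℝ) × ℝ) := Q ∪ (Set.range F3 ∪ Set.range F2) with hSdef
  have hS : S.Finite := hQ.union ((Set.finite_range _).union (Set.finite_range _))
  have hQS : ∀ q ∈ Q, q ∈ S := fun q hq => Or.inl hq
  have h3S : ∀ i, F3 i ∈ S := fun i => Or.inr (Or.inl ⟨i, rfl⟩)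
  have h2S : ∀ i, F2 i ∈ S := fun i => Or.inr (Or.inr ⟨i, rfl⟩)
  -- a generic integer point
  obtain ⟨θ, hgen⟩ : ∃ θ : (X → ℤ) × (Fin n → ℤ), ∀ q ∈ S, PhiZ Γ σ emb q.1 θ = 0 →
      ∀ θ', PhiZ Γ σ emb q.1 θ' = 0 := by
    obtain ⟨θ, hθ⟩ := exists_forall_addHom_ne_zero
      (s := {q ∈ S | ∃ θ', PhiZ Γ σ emb q.1 θ' ≠ 0}) (hS.subset (Set.sep_subset _ _))
      (fun q : (Fin n → ℝ) × ℝ => PhiZ Γ σ emb q.1) (fun q hq => hq.2)
    refine ⟨θ, fun q hq h0 => ?_⟩
    by_contra hcon
    push Not at hcon
    exact hθ q ⟨hq, hcon⟩ h0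
  set p : X → ℝ := fun x => (θ.1 x : ℝ) with hp
  set u : Fin n → ℝ := fun i => (θ.2 i : ℝ) with hu
  set zz : Option T → I → ℝ := fun o => o.elim P.w P.wt with hzz
  have hzzZ : ∀ o e, ∃ z : ℤ, zz o e = z := by
    intro o e
    cases o with
    | none => exact hw e
    | some t => exact hwt t e
  set A : ((Fin n → ℝ) × ℝ) → ℝ := fun q => Phi Γ σ emb (q.1, 0) (p, u, 1) with hA
  have hAgen : ∀ q ∈ S, A q = 0 → (∀ j, (∀ e, emb e ≠ j) → q.1 j = 0) ∧
      Γ.IsCirc (fun e => q.1 (emb e) * sg Γ σ e) := by
    intro q hq h0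
    exact of_PhiZ_eq_zero σ emb q.1 (hgen q hq h0)
  set B : ((Fin n → ℝ) × ℝ) → Option T → ℝ :=
    fun q o => ∑ e, (q.1 (emb e) * sg Γ σ e) * zz o e with hB
  -- the scales
  obtain ⟨M, hM, hMb⟩ : ∃ M : ℕ, 0 < M ∧ ∀ q ∈ S, ∀ o, B q o ≠ 0 → |q.2| < |(M : ℝ) * B q o| := by
    have : ∀ᶠ M : ℕ in atTop, ∀ q ∈ S, ∀ o, B q o ≠ 0 → |q.2| < |(M : ℝ) * B q o| := by
      rw [eventually_all_finite hS]
      intro q _
      rw [eventually_all]
      intro o
      by_cases h0 : B q o = 0
      · exact Eventually.of_forall fun ε h => absurd h0 h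
      · have ht : Tendsto (fun M : ℕ => (M : ℝ) * |B q o|) atTop atTop :=
          tendsto_natCast_atTop_atTop.atTop_mul_const (abs_pos.2 h0)
        filter_upwards [ht.eventually_gt_atTop |q.2|] with M hM _
        rw [abs_mul, Nat.abs_cast]
        exact hM
    obtain ⟨M, h1, h2⟩ := (this.and (eventually_gt_atTop 0)).exists
    exact ⟨M, h2, h1⟩
  obtain ⟨N, hN, hNb⟩ : ∃ N : ℕ, 0 < N ∧ ∀ q ∈ S, ∀ o, A q ≠ 0 →
      |(M : ℝ) * B q o + q.2| < |(N : ℝ) * A q| := by
    have : ∀ᶠ N : ℕ in atTop, ∀ q ∈ S, ∀ o, A q ≠ 0 →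
        |(M : ℝ) * B q o + q.2| < |(N : ℝ) * A q| := by
      rw [eventually_all_finite hS]
      intro q _
      rw [eventually_all]
      intro o
      by_cases h0 : A q = 0
      · exact Eventually.of_forall fun ε h => absurd h0 h
      · have ht : Tendsto (fun N : ℕ => (N : ℝ) * |A q|) atTop atTop :=
          tendsto_natCast_atTop_atTop.atTop_mul_const (abs_pos.2 h0)
        filter_upwards [ht.eventually_gt_atTop |(M : ℝ) * B q o + q.2|] with N hN _
        rw [abs_mul (N : ℝ), Nat.abs_cast]
        exact hN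
    obtain ⟨N, h1, h2⟩ := (this.and (eventually_gt_atTop 0)).exists
    exact ⟨N, h2, h1⟩
  have hM0 : (0 : ℝ) < M := by exact_mod_cast hM
  have hN0 : (0 : ℝ) < N := by exact_mod_cast hN
  -- the inputs
  have hint : ∀ (o : Option T) (j : Fin n), ∃ z : ℤ,
      (z : ℝ) = N * inp Γ σ emb p u ((M : ℝ) / N) (zz o) j := by
    intro o j
    by_cases hj : ∃ e, emb e = j
    · obtain ⟨e, rfl⟩ := hj
      rw [inp, emb.injective.extend_apply]
      obtain ⟨z, hz⟩ := hzzZ o e
      obtain ⟨s, hs⟩ : ∃ s : ℤ, (s : ℝ) = sg Γ σ e := by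
        unfold sg
        rcases hσ with rfl | rfl <;> split_ifs
        · exact ⟨-1, by norm_num⟩
        · exact ⟨1, by norm_num⟩
        · exact ⟨1, by norm_num⟩
        · exact ⟨1, by norm_num⟩
      refine ⟨s * (N * (θ.1 (Γ.src e) - θ.1 (Γ.tgt e)) + M * z), ?_⟩
      rw [hz, ← hs]
      push_cast
      simp only [hp]
      field_simp
    · rw [inp, Function.extend_apply' _ _ _ hj]
      exact ⟨N * θ.2 j, by push_cast; rfl⟩
  choose x hx using hint
  have hval : ∀ (q : (Fin n → ℝ) × ℝ) (o : Option T),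
      ∑ j, q.1 j * (x o j : ℝ) + q.2 = N * A q + (M * B q o + q.2) := by
    intro q o
    have h1 : ∑ j, q.1 j * (x o j : ℝ) =
        N * ∑ j, q.1 j * inp Γ σ emb p u ((M : ℝ) / N) (zz o) j := by
      rw [Finset.mul_sum]
      apply Finset.sum_congr rfl
      intro j _
      rw [hx]
      ring
    rw [h1, sum_inp]
    simp only [hA, hB]
    field_simp
    ring
  have hsign : ∀ q ∈ S, A q ≠ 0 → ∀ o,
      SignType.sign (∑ j, q.1 j * (x o j : ℝ) + q.2) = SignType.sign (A q) := by
    intro q hq h0 o
    rw [hval, sign_add_of_lt (hNb q hq o h0), sign_mul, sign_pos hN0, one_mul]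
  have hne : ∀ q ∈ S, A q ≠ 0 → ∀ o, ∑ j, q.1 j * (x o j : ℝ) + q.2 ≠ 0 := by
    intro q hq hA0 o h
    have := hsign q hq hA0 o
    rw [h, sign_zero, eq_comm, sign_eq_zero_iff] at this
    exact hA0 this
  have hsign2 : ∀ q ∈ S, A q = 0 → ∀ o, B q o ≠ 0 →
      SignType.sign (∑ j, q.1 j * (x o j : ℝ) + q.2) = SignType.sign (B q o) := by
    intro q hq h0 o hB0
    rw [hval, h0, mul_zero, zero_add, sign_add_of_lt (hMb q hq o hB0), sign_mul, sign_pos hM0,
      one_mul]
  have hinj : ∀ o, Function.Injective (x o) := by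
    intro o i j hij
    by_contra hne'
    have hzero : ∑ l, (F2 (i, j)).1 l * (x o l : ℝ) + (F2 (i, j)).2 = 0 := by
      simp only [hF2, Pi.sub_apply, sub_mul, Finset.sum_sub_distrib, Pi.single_apply, ite_mul,
        one_mul, zero_mul, Finset.sum_ite_eq', mem_univ, if_true, add_zero]
      rw [hij, sub_self]
    by_cases hP : A (F2 (i, j)) = 0
    · obtain ⟨h2, h3⟩ := hAgen _ (h2S _) hP
      have hi : (F2 (i, j)).1 i ≠ 0 := by
        simp only [hF2, Pi.sub_apply, Pi.single_eq_same, Pi.single_eq_of_ne hne', sub_zero]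
        exact one_ne_zero
      have hj : (F2 (i, j)).1 j ≠ 0 := by
        simp only [hF2, Pi.sub_apply, Pi.single_eq_same, Pi.single_eq_of_ne (Ne.symm hne'),
          zero_sub]
        norm_num
      obtain ⟨a, ha⟩ : ∃ a, emb a = i := by
        by_contra h; push Not at h; exact hi (h2 i h)
      obtain ⟨b, hb⟩ : ∃ b, emb b = j := by
        by_contra h; push Not at h; exact hj (h2 j h)
      have h4 := TGraph.circ_two h3 (a := a) (b := b) (by
        intro e he
        have h5 := left_ne_zero_of_mul he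
        simp only [hF2, Pi.sub_apply, Pi.single_apply] at h5
        by_contra hcon
        push Not at hcon
        have e1 : emb e ≠ i := fun h => hcon.1 (emb.injective (h.trans ha.symm))
        have e2 : emb e ≠ j := fun h => hcon.2 (emb.injective (h.trans hb.symm))
        simp [e1, e2] at h5)
      have h5 := congrFun h4 a
      simp only [ha, Pi.zero_apply] at h5
      exact mul_ne_zero hi (sg_ne_zero hσ a) h5
    · exact hne _ (h2S _) hP o hzero
  refine ⟨x none, fun t => x (some t), hinj _, fun t => hinj _, ?_, ?_, ?_⟩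
  · -- no solution
    rintro ⟨i, j, k, hij, hik, hjk, hsol⟩
    have hzero : ∑ l, (F3 (i, j, k)).1 l * (x none l : ℝ) + (F3 (i, j, k)).2 = 0 := by
      simp only [hF3, Pi.sub_apply, Pi.add_apply, Pi.smul_apply, smul_eq_mul, sub_mul, add_mul,
        Finset.sum_sub_distrib, Finset.sum_add_distrib, Pi.single_apply, ite_mul, mul_ite,
        mul_one, mul_zero,
        one_mul, zero_mul, Finset.sum_ite_eq', mem_univ, if_true, add_zero]
      linarith
    by_cases hP : A (F3 (i, j, k)) = 0
    · obtain ⟨h2, h3⟩ := hAgen _ (h3S _) hP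
      have hi : (F3 (i, j, k)).1 i ≠ 0 := by
        simp [hF3, Pi.single_eq_of_ne hij, Pi.single_eq_of_ne hik]
      obtain ⟨a, ha⟩ : ∃ a, emb a = i := by
        by_contra h; push Not at h; exact hi (h2 i h)
      have hsupp : {l | (F3 (i, j, k)).1 l ≠ 0}.ncard ≤ 5 := by
        calc _ ≤ ({i, j, k} : Set (Fin n)).ncard := by
              apply Set.ncard_le_ncard _ (Set.toFinite _)
              intro l hl
              by_contra hcon
              simp only [Set.mem_insert_iff, Set.mem_singleton_iff, not_or] at hcon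
              apply hl
              simp [hF3, Pi.single_eq_of_ne hcon.1, Pi.single_eq_of_ne hcon.2.1,
                Pi.single_eq_of_ne hcon.2.2]
          _ ≤ 3 := by
              have := Set.ncard_insert_le i ({j, k} : Set (Fin n))
              have := Set.ncard_insert_le j ({k} : Set (Fin n))
              have := Set.ncard_singleton k
              omega
          _ ≤ 5 := by norm_num
      have hcard := card_filter_le emb (F3 (i, j, k)).1 (sg Γ σ) 5 hsupp
      have hsep : Separated C (fun e => (F3 (i, j, k)).1 (emb e) * sg Γ σ e) := by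
        apply separated_mul_sg hσ
        refine separated_of_abs ?_ (le_trans zero_le_one P.one_le_C)
        intro l
        have hσ1 : |σ| = 1 := by rcases hσ with rfl | rfl <;> simp
        simp only [hF3, Pi.sub_apply, Pi.add_apply, Pi.smul_apply, smul_eq_mul, Pi.single_apply]
        by_cases g1 : l = i
        · subst g1
          right
          simp [hij, hik]
        · by_cases g2 : l = j
          · subst g2
            right
            simp [g1, hjk]
          · by_cases g3 : l = k
            · right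
              rw [if_neg g1, if_neg g2, if_pos g3]
              simp [hσ1]
            · left
              simp [g1, g2, g3]
      have hnz : (fun e => (F3 (i, j, k)).1 (emb e) * sg Γ σ e) ≠ 0 := by
        intro h
        have h5 := congrFun h a
        simp only [ha, Pi.zero_apply] at h5
        exact mul_ne_zero hi (sg_ne_zero hσ a) h5
      have hB0 : B (F3 (i, j, k)) none ≠ 0 := P.ne_zero hΓ h3 hcard hsep hnz
      have h6 := hsign2 _ (h3S _) hP none hB0
      rw [hzero, sign_zero, eq_comm, sign_eq_zero_iff] at h6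
      exact hB0 h6
    · exact hne _ (h3S _) hP none hzero
  · -- solutions
    intro t
    have hcoln : ∀ k k', k ≠ k' → emb (Γ.edge t k) ≠ emb (Γ.edge t k') := by
      intro k k' hk h
      have := emb.injective h
      have h1 := Γ.edge_col t k
      rw [this, Γ.edge_col] at h1
      exact hk h1.symm
    refine ⟨emb (Γ.edge t 0), emb (Γ.edge t 1), emb (Γ.edge t 2), hcoln _ _ (by decide),
      hcoln _ _ (by decide), hcoln _ _ (by decide), ?_⟩
    have hz := P.zero t
    unfold TGraph.tau at hz
    have h3 : (Finset.univ : Finset (ZMod 3)) = {0, 1, 2} := by decide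
    rw [h3, Finset.sum_insert (by decide), Finset.sum_insert (by decide),
      Finset.sum_singleton] at hz
    have n0 := Γ.edge_next t 0
    have n1 := Γ.edge_next t 1
    have n2 := Γ.edge_next t 2
    rw [show (0 + 1 : ZMod 3) = 1 by decide] at n0
    rw [show (1 + 1 : ZMod 3) = 2 by decide] at n1
    rw [show (2 + 1 : ZMod 3) = 0 by decide] at n2
    simp only [hx, inp, emb.injective.extend_apply, sg, Γ.edge_col, if_true, n0, n1, n2]
    rw [if_neg (by decide), if_neg (by decide)]
    simp only [hzz, Option.elim]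
    linear_combination (-((M : ℝ) / N) * N) * (-hz) +
      N * (p (Γ.src (Γ.edge t 2)) - p (Γ.src (Γ.edge t 0)) +
      (M : ℝ) / N * P.wt t (Γ.edge t 2)) * hσ2
  · intro q hq
    by_cases hP : A q = 0
    · obtain ⟨h2, h3⟩ := hAgen q (hQS q hq) hP
      have hcard := card_filter_le emb q.1 (sg Γ σ) 5 (hQ5 q hq)
      have hsep : Separated C (fun e => q.1 (emb e) * sg Γ σ e) := separated_mul_sg hσ emb (hQm q hq)
      by_cases hzero : (fun e => q.1 (emb e) * sg Γ σ e) = 0
      · have hB0 : ∀ o, B q o = 0 := by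
          intro o
          simp only [hB]
          apply Finset.sum_eq_zero
          intro e _
          have := congrFun hzero e
          simp only [Pi.zero_apply] at this
          rw [this, zero_mul]
        have : (univ.filter fun t => SignType.sign (∑ i, q.1 i * (x (some t) i : ℝ) + q.2) ≠
            SignType.sign (∑ i, q.1 i * (x none i : ℝ) + q.2)) = ∅ := by
          rw [Finset.filter_eq_empty_iff]
          intro t _ hcon
          apply hcon
          rw [hval, hval, hB0, hB0]
        rw [this]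
        simp
      · have hB0 : B q none ≠ 0 := P.ne_zero hΓ h3 hcard hsep hzero
        have := P.card_sign_ne hΓ h3 hcard hsep
        refine le_trans (Finset.card_le_card ?_) this
        intro t ht
        simp only [mem_filter, mem_univ, true_and] at ht ⊢
        intro hcon
        apply ht
        have hcon' : SignType.sign (B q (some t)) = SignType.sign (B q none) := hcon
        have hB1 : B q (some t) ≠ 0 := by
          intro h
          rw [h, sign_zero, eq_comm, sign_eq_zero_iff] at hcon'
          exact hB0 hcon'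
        rw [hsign2 q (hQS q hq) hP _ hB0, hsign2 q (hQS q hq) hP _ hB1, hcon']
    · have : (univ.filter fun t => SignType.sign (∑ i, q.1 i * (x (some t) i : ℝ) + q.2) ≠
          SignType.sign (∑ i, q.1 i * (x none i : ℝ) + q.2)) = ∅ := by
        rw [Finset.filter_eq_empty_iff]
        intro t _ hcon
        apply hcon
        rw [hsign q (hQS q hq) hP, hsign q (hQS q hq) hP]
      rw [this]
      simp

end Pool.Agent.FourLin
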