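import Pool.Agent.FourLin.CosetPert
import Pool.Agent.FiveLin.Pert5

/-!
The shifted perturbations of a coset graph.
-/

set_option linter.unusedSectionVars false
set_option linter.unusedSimpArgs false

namespace Pool.Agent.FourLin

open Finset

namespace CosetGeo

variable {p : ℕ} [Fact p.Prime] {G : Type*} [Group G] [Fintype G] [DecidableEq G]
variable (D : CosetGeo (ZMod p) G)

/-- The type of an edge. -/
def tyE : D.E → ZMod 3 :=
  Quotient.lift (fun u : ZMod 3 × G => u.1) (by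
    rintro ⟨i, g⟩ ⟨j, h⟩ ⟨h1, h2⟩
    exact h1)

lemma tyE_mk (i : ZMod 3) (g : G) : D.tyE (D.mkE i g) = i := rfl

/-- The shifted basic weights. -/
def wJ (N R : ℕ) (e : D.E) : ℤ := 3 * 2 ^ R * (D.ht e + if D.tyE e = 0 then (N : ℤ) else 0)

/-- The shifted collapsing weights. -/
def wtJ (N R : ℕ) (t : G) (e : D.E) : ℤ := D.wJ N R e + (D.hf t + N) * D.pY R t e

lemma sum_wJ (N R : ℕ) (g : G) : ∑ k, D.wJ N R (D.mkE k g) = 3 * 2 ^ R * (D.hf g + N) := by
  have h3 : (Finset.univ : Finset (ZMod 3)) = {0, 1, 2} := by decide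
  have h4 : ∑ k : ZMod 3, (if k = 0 then (N : ℤ) else 0) = N := by
    rw [h3, Finset.sum_insert (by decide), Finset.sum_insert (by decide),
      Finset.sum_singleton, if_pos rfl, if_neg (by decide), if_neg (by decide)]
    ring
  have h5 : ∀ k, D.wJ N R (D.mkE k g) =
      3 * 2 ^ R * (D.ht (D.mkE k g) + if k = 0 then (N : ℤ) else 0) := fun _ => rfl
  simp only [h5, ← Finset.mul_sum, Finset.sum_add_distrib, sum_ht, h4]

lemma sum_wtJ (N R : ℕ) (t g : G) : ∑ k, D.wtJ N R t (D.mkE k g) = 3 * 2 ^ R * (D.hf g + N) +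
    (D.hf t + N) * (-(3 * 2 ^ R) * wtot D.a 0 (t⁻¹ * g) +
      wc R R * wtot D.a (R + 1) (t⁻¹ * g)) := by
  simp only [wtJ, Finset.sum_add_distrib, sum_wJ, ← Finset.mul_sum, sum_pY]

/-- The shifted perturbations of the coset graph. -/
noncomputable def pert5 {N R : ℕ} (hG : D.Good R) {C : ℝ} (hC : 1 ≤ C) (hCN : C * (3 * p) ≤ N)
    (hNR : N + 3 * p < 2 ^ R) : Pert5 D.graph C where
  w := fun e => (D.wJ N R e : ℝ)
  wt := fun t e => (D.wtJ N R t e : ℝ)
  H := fun t => (D.hf t : ℝ) + N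
  N := N
  P := 3 * p
  D := 3 * 2 ^ R
  one_le_C := hC
  zero_le_P := by positivity
  C_mul_P := hCN
  lt_D := by
    have : ((N + 3 * p : ℕ) : ℝ) < ((2 ^ R : ℕ) : ℝ) := by exact_mod_cast hNR
    push_cast at this
    linarith
  le_H := by
    intro t
    have : (1 : ℝ) ≤ D.hf t := by exact_mod_cast D.hf_pos t
    linarith
  H_le := by
    intro t
    have : (D.hf t : ℝ) < ((3 * p : ℤ) : ℝ) := by exact_mod_cast D.hf_lt t
    push_cast at this
    linarith
  diff := by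
    intro t t' k hne hk
    have h1 : 1 ≤ |D.hf t - D.hf t'| := Int.one_le_abs (sub_ne_zero.2 (D.hf_ne hne hk))
    have h2 : ((1 : ℤ) : ℝ) ≤ ((|D.hf t - D.hf t'| : ℤ) : ℝ) := by exact_mod_cast h1
    push_cast at h2
    rw [add_sub_add_right_eq_sub]
    exact h2
  tau_w := by
    intro t
    have h : D.graph.tau t (fun e => (D.wJ N R e : ℝ)) =
        ((3 * 2 ^ R * (D.hf t + N) : ℤ) : ℝ) := by
      rw [← sum_wJ]
      push_cast
      rfl
    rw [h]
    push_cast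
    ring
  zero := by
    intro t
    have h : D.graph.tau t (fun e => (D.wtJ N R t e : ℝ)) =
        ((∑ k, D.wtJ N R t (D.mkE k t) : ℤ) : ℝ) := by
      push_cast
      rfl
    rw [h, sum_wtJ, inv_mul_cancel, hG.2.2]
    simp only [wtot, if_true]
    push_cast
    ring
  tau_wt := by
    intro t g hgt
    have h : D.graph.tau g (fun e => (D.wtJ N R t e : ℝ)) =
        ((∑ k, D.wtJ N R t (D.mkE k g) : ℤ) : ℝ) := by
      push_cast
      rfl
    have h1 : t⁻¹ * g ≠ 1 := by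
      intro h'
      apply hgt
      rw [inv_mul_eq_one] at h'
      exact h'.symm
    have h2 : (wtot D.a 0 (t⁻¹ * g)) = 0 := by
      simp only [wtot, if_neg h1]
    rw [h, sum_wtJ, h2]
    obtain ⟨h3, h4⟩ := hG.2.1 (t⁻¹ * g)
    have h5 : ((3 * 2 ^ R * (D.hf g + N) + (D.hf t + N) * (-(3 * 2 ^ R) * 0 +
        wc R R * wtot D.a (R + 1) (t⁻¹ * g)) : ℤ) : ℝ) - 3 * 2 ^ R * ((D.hf g : ℝ) + N) =
        (((D.hf t + N) * (wc R R * wtot D.a (R + 1) (t⁻¹ * g)) : ℤ) : ℝ) := by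
      push_cast
      ring
    rw [h5]
    have h6 : |(D.hf t + N) * (wc R R * wtot D.a (R + 1) (t⁻¹ * g))| ≤ D.hf t + N := by
      have h7 : 0 ≤ D.hf t + N := by
        have := D.hf_pos t
        positivity
      rw [abs_mul, abs_of_nonneg h7, abs_mul, abs_of_nonneg h3]
      have h9 : |wc R R| = 1 := by rcases wc_self R with h | h <;> rw [h] <;> simp
      rw [h9, one_mul]
      nlinarith
    have h10 : ((|(D.hf t + N) * (wc R R * wtot D.a (R + 1) (t⁻¹ * g))| : ℤ) : ℝ) ≤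
        ((D.hf t + N : ℤ) : ℝ) := by exact_mod_cast h6
    rw [Int.cast_abs] at h10
    push_cast at h10 ⊢
    exact h10

lemma pert5_w {N R : ℕ} (hG : D.Good R) {C : ℝ} (hC : 1 ≤ C) (hCN : C * (3 * p) ≤ N)
    (hNR : N + 3 * p < 2 ^ R) (e : D.E) : ∃ z : ℤ, (D.pert5 hG hC hCN hNR).w e = z :=
  ⟨D.wJ N R e, rfl⟩

lemma pert5_wt {N R : ℕ} (hG : D.Good R) {C : ℝ} (hC : 1 ≤ C) (hCN : C * (3 * p) ≤ N)
    (hNR : N + 3 * p < 2 ^ R) (t : G) (e : D.E) :
    ∃ z : ℤ, (D.pert5 hG hC hCN hNR).wt t e = z :=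
  ⟨D.wtJ N R t e, rfl⟩

end CosetGeo

end Pool.Agent.FourLin
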