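import Pool.Agent.FiveLin.Grp
import Pool.Agent.FiveLin.Circ5

/-!
Five-cycles of the coset graph have chords.
-/

set_option linter.unusedSectionVars false
set_option linter.unusedSimpArgs false

namespace Pool.Agent.FourLin

namespace CosetGeo

variable {F G : Type*} [AddCommGroup F] [Group G] (D : CosetGeo F G)

theorem penta (h5 : D.Five) : D.graph.Penta := by
  intro e_a
  obtain ⟨i, ga, rfl⟩ := D.E_surj e_a
  intro e_b
  obtain ⟨ib, gb, rfl⟩ := D.E_surj e_b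
  intro e_c
  obtain ⟨ic, gc, rfl⟩ := D.E_surj e_c
  intro e_d
  obtain ⟨i4, gd, rfl⟩ := D.E_surj e_d
  intro e_e
  obtain ⟨ie, ge, rfl⟩ := D.E_surj e_e
  intro g1 g2 g3 g4 g5
  have h1 : D.tgtE (D.mkE i ga) = D.srcE (D.mkE ib gb) := g1
  have h2 : D.tgtE (D.mkE ib gb) = D.tgtE (D.mkE ic gc) := g2
  have h3 : D.srcE (D.mkE ic gc) = D.srcE (D.mkE i4 gd) := g3
  have h4 : D.tgtE (D.mkE i4 gd) = D.srcE (D.mkE ie ge) := g4
  have h5' : D.tgtE (D.mkE ie ge) = D.srcE (D.mkE i ga) := g5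
  clear g1 g2 g3 g4 g5
  simp only [srcE_mk, tgtE_mk, mkW_eq] at h1 h2 h3 h4 h5'
  obtain ⟨rfl, hp⟩ := h1
  obtain ⟨e2, hq⟩ := h2
  obtain rfl := add_right_cancel e2
  obtain ⟨rfl, hr⟩ := h3
  obtain ⟨rfl, hs⟩ := h4
  obtain ⟨-, hk⟩ := h5'
  have e1 : i + 1 + 1 = i + 2 := by ring
  have e3 : i + 2 + 1 = i := by
    rw [add_assoc, show (2 + 1 : ZMod 3) = 0 by decide, add_zero]
  rw [e1] at hq hs hk
  rw [e3] at hk
  rcases h5 i _ hp _ hq _ hr _ hs _ hk (by group) with h | h | ⟨x, y, h⟩ | ⟨x, y, h⟩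
  · left
    exact D.mkE_eq.2 ⟨rfl, h, by rw [e1]; exact hq⟩
  · right; left
    exact D.mkE_eq.2 ⟨rfl, hr, by rw [e1]; exact h⟩
  · right; right; left
    have hb : gb = ga * D.a i x * D.a (i + 1) y := by
      rw [mul_assoc, ← h]
      group
    refine ⟨D.mkE (i + 2) (ga * D.a i x), ?_, ?_⟩
    · refine (D.mkW_eq.2 ⟨e1.symm, ?_⟩ : D.mkW (i + 2) (ga * D.a i x) = D.mkW (i + 1 + 1) gb)
      rw [hb, inv_mul_cancel_left, ← e1]
      exact D.a_mem_right _ y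
    · refine (D.mkW_eq.2 ⟨e3, ?_⟩ : D.mkW (i + 2 + 1) (ga * D.a i x) = D.mkW i ga)
      rw [e3, mul_inv_rev, mul_assoc, inv_mul_cancel, mul_one]
      exact inv_mem (D.a_mem_left _ x)
  · right; right; right
    have he : ge = gd * D.a (i + 1) x * D.a (i + 2) y := by
      rw [mul_assoc, ← h]
      group
    refine ⟨D.mkE i (gd * D.a (i + 1) x), ?_, ?_⟩
    · refine (D.mkW_eq.2 ⟨rfl, ?_⟩ : D.mkW i (gd * D.a (i + 1) x) = D.mkW i ga)
      have : (gd * D.a (i + 1) x)⁻¹ * ga = D.a (i + 2) y * (ge⁻¹ * ga) := by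
        rw [he]
        group
      rw [this]
      refine mul_mem ?_ hk
      have := D.a_mem_right (i + 2) y
      rwa [e3] at this
    · refine (D.mkW_eq.2 ⟨rfl, ?_⟩ : D.mkW (i + 1) (gd * D.a (i + 1) x) = D.mkW (i + 1) gc)
      have : (gd * D.a (i + 1) x)⁻¹ * gc = (D.a (i + 1) x)⁻¹ * (gc⁻¹ * gd)⁻¹ := by group
      rw [this]
      exact mul_mem (inv_mem (D.a_mem_left _ x)) (inv_mem hr)

end CosetGeo

end Pool.Agent.FourLin
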