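import Pool.Agent.FiveLin.Adv5

/-!
From shifted perturbations to lower bounds for randomised five-linear decision trees with separated
coefficients on integer inputs.
-/

set_option linter.unusedSectionVars false
set_option linter.unusedSimpArgs false

namespace Pool.Agent.FourLin

open Finset

namespace LTree

lemma separated_questions {n : ℕ} {C : ℝ} {A : LTree n} (h : A.IsSeparated C) :
    ∀ q ∈ A.questions, Separated C q.1 := by
  induction h with
  | leaf r => intro q hq; exact absurd hq (Set.notMem_empty _)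
  | node c b next hc _ ih =>
    intro q hq
    rcases hq with rfl | hq
    · exact hc
    · obtain ⟨t, ht⟩ := Set.mem_iUnion.1 hq
      exact ih t q ht

open Classical in
/-- If every question of the tree distinguishes the input `x` from at most `m` of the inputs
`y t`, then the answer on `x` differs from the answer on `y t` for at most `m * cost` values
of `t`. -/
lemma card_answer_ne_mul {n m : ℕ} {T : Type*} [Fintype T] (x : Fin n → ℝ) (y : T → Fin n → ℝ)
    (A : LTree n) (h : ∀ q ∈ A.questions, (Finset.univ.filter fun t =>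
      SignType.sign (∑ i, q.1 i * y t i + q.2) ≠ SignType.sign (∑ i, q.1 i * x i + q.2)).card ≤ m) :
    (Finset.univ.filter fun t => A.answer (y t) ≠ A.answer x).card ≤ m * A.cost x := by
  induction A with
  | leaf r => simp [answer, cost]
  | node c b next ih =>
    set s := SignType.sign (∑ i, c i * x i + b) with hs
    have h1 := h (c, b) (Set.mem_insert _ _)
    have h2 := ih s (fun q hq => h q (Set.mem_insert_of_mem _ (Set.mem_iUnion.2 ⟨s, hq⟩)))
    have hsub : (Finset.univ.filter fun t =>
        (node c b next).answer (y t) ≠ (node c b next).answer x) ⊆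
        (Finset.univ.filter fun t => SignType.sign (∑ i, c i * y t i + b) ≠
          SignType.sign (∑ i, c i * x i + b)) ∪
        (Finset.univ.filter fun t => (next s).answer (y t) ≠ (next s).answer x) := by
      intro t ht
      simp only [Finset.mem_union, Finset.mem_filter, Finset.mem_univ, true_and] at ht ⊢
      by_contra hcon
      push Not at hcon
      obtain ⟨g1, g2⟩ := hcon
      apply ht
      simp only [answer]
      rw [g1, ← hs]
      exact g2
    calc _ ≤ _ := Finset.card_le_card hsub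
      _ ≤ _ := Finset.card_union_le _ _
      _ ≤ m + m * (next s).cost x := Nat.add_le_add h1 h2
      _ = m * (node c b next).cost x := by simp only [cost, ← hs]; ring

end LTree

variable {X I T : Type*} [DecidableEq X] [Fintype I] [DecidableEq I] [Fintype T]
variable {Γ : TGraph X I T} {C : ℝ}

lemma exists_inputs5 (P : Pert5 Γ C) (hΓ : Γ.Penta) (hw : ∀ e, ∃ z : ℤ, P.w e = z)
    (hwt : ∀ t e, ∃ z : ℤ, P.wt t e = z) {n : ℕ} (emb : I ↪ Fin n) {σ : ℝ}
    (hσ : σ = 1 ∨ σ = -1) {Ω : Type} [Fintype Ω] (A : Ω → LTree n)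
    (hA : ∀ ω, (A ω).Sparse 5) (hA' : ∀ ω, (A ω).IsSeparated C) :
    ∃ (x : Fin n → ℤ) (y : T → Fin n → ℤ), Function.Injective x ∧
      (∀ t, Function.Injective (y t)) ∧ ¬ HasSol σ (toReal x) ∧
      (∀ t, HasSol σ (toReal (y t))) ∧
      ∀ ω, ∀ S : Finset T, (∀ t ∈ S, (A ω).answer (toReal (y t)) ≠ (A ω).answer (toReal x)) →
        S.card ≤ 3 * (A ω).cost (toReal x) := by
  classical
  obtain ⟨x, y, h1, h2, h3, h4, h5⟩ := adversary5 P hΓ hw hwt emb hσ (⋃ ω, (A ω).questions)
    (Set.finite_iUnion fun ω => (A ω).questions_finite) (by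
      intro q hq
      obtain ⟨ω, hω⟩ := Set.mem_iUnion.1 hq
      exact LTree.sparse_questions (hA ω) q hω) (by
      intro q hq
      obtain ⟨ω, hω⟩ := Set.mem_iUnion.1 hq
      exact LTree.separated_questions (hA' ω) q hω)
  refine ⟨x, y, h1, h2, h3, h4, ?_⟩
  intro ω S hS
  refine le_trans (Finset.card_le_card ?_) (LTree.card_answer_ne_mul (m := 3) (toReal x)
    (fun t => toReal (y t)) (A ω) fun q hq => ?_)
  · intro t ht
    simpa using hS t ht
  · exact h5 q (Set.mem_iUnion.2 ⟨ω, hq⟩)

theorem solver_bound5 (P : Pert5 Γ C) (hΓ : Γ.Penta) (hw : ∀ e, ∃ z : ℤ, P.w e = z)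
    (hwt : ∀ t e, ∃ z : ℤ, P.wt t e = z) {n : ℕ} (emb : I ↪ Fin n) {σ : ℝ}
    (hσ : σ = 1 ∨ σ = -1) {Ω : Type} [Fintype Ω] {E : ℝ} {μ : Ω → ℝ} {A : Ω → LTree n}
    (h : Solver σ n 5 E μ A) (hm : ∀ ω, (A ω).IsSeparated C) : (Fintype.card T : ℝ) ≤ 9 * E := by
  classical
  obtain ⟨hμ, hμ1, hA, hx⟩ := h
  obtain ⟨x, y, h1, h2, h3, h4, h5⟩ := exists_inputs5 P hΓ hw hwt emb hσ A hA hm
  set a : Ω → ℝ := fun ω =>
    if ((A ω).answer (toReal x) = true ↔ HasSol σ (toReal x)) then μ ω else 0 with ha
  set b : T → Ω → ℝ := fun t ω =>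
    if ((A ω).answer (toReal (y t)) = true ↔ HasSol σ (toReal (y t))) then μ ω else 0 with hb
  set c : T → Ω → ℝ := fun t ω =>
    if (A ω).answer (toReal (y t)) ≠ (A ω).answer (toReal x) then μ ω else 0 with hc
  have ha1 : 2 / 3 ≤ ∑ ω, a ω := by
    have := (hx x h1).1
    refine le_trans this (le_of_eq ?_)
    apply Finset.sum_congr rfl
    intro ω _
    simp only [ha]
  have hb1 : ∀ t, 2 / 3 ≤ ∑ ω, b t ω := by
    intro t
    have := (hx (y t) (h2 t)).1
    refine le_trans this (le_of_eq ?_)
    apply Finset.sum_congr rfl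
    intro ω _
    simp only [hb]
  have hc1 : ∀ t, 1 / 3 ≤ ∑ ω, c t ω := by
    intro t
    have : ∀ ω, a ω + b t ω - μ ω ≤ c t ω := by
      intro ω
      have := hμ ω
      have e3 : (A ω).answer (toReal (y t)) = true ↔
          ((A ω).answer (toReal (y t)) = true ↔ HasSol σ (toReal (y t))) := by
        simp [h4 t]
      simp only [ha, hb, hc]
      split_ifs with q1 q2 q3 q4 q5 q6 <;> first
        | linarith
        | (exfalso
           have e1 : (A ω).answer (toReal (y t)) = true := by tauto
           have e2 : ¬ (A ω).answer (toReal x) = true := fun h => h3 (q1.1 h)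
           have e4 : (A ω).answer (toReal (y t)) = (A ω).answer (toReal x) := by tauto
           rw [e4] at e1
           exact e2 e1)
    have h7 := Finset.sum_le_sum fun ω (_ : ω ∈ Finset.univ) => this ω
    rw [Finset.sum_sub_distrib, Finset.sum_add_distrib, hμ1] at h7
    have := hb1 t
    linarith
  have hc2 : ∀ ω, ∑ t, c t ω ≤ 3 * (μ ω * ((A ω).cost (toReal x) : ℝ)) := by
    intro ω
    have hcard := h5 ω (univ.filter fun t =>
      (A ω).answer (toReal (y t)) ≠ (A ω).answer (toReal x)) (by
        intro t ht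
        exact (mem_filter.1 ht).2)
    have e1 : ∑ t, c t ω = ((univ.filter fun t =>
        (A ω).answer (toReal (y t)) ≠ (A ω).answer (toReal x)).card : ℝ) * μ ω := by
      simp only [hc]
      rw [← Finset.sum_filter, Finset.sum_const, nsmul_eq_mul]
    rw [e1]
    have h8 : ((univ.filter fun t =>
        (A ω).answer (toReal (y t)) ≠ (A ω).answer (toReal x)).card : ℝ) ≤
        ((3 * (A ω).cost (toReal x) : ℕ) : ℝ) := by exact_mod_cast hcard
    have := mul_le_mul_of_nonneg_right h8 (hμ ω)
    push_cast at this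
    linarith
  have h9 : (Fintype.card T : ℝ) * (1 / 3) ≤ 3 * E := by
    calc (Fintype.card T : ℝ) * (1 / 3) = ∑ _t : T, (1 / 3 : ℝ) := by
          rw [Finset.sum_const, nsmul_eq_mul, Finset.card_univ]
      _ ≤ ∑ t, ∑ ω, c t ω := Finset.sum_le_sum fun t _ => hc1 t
      _ = ∑ ω, ∑ t, c t ω := Finset.sum_comm
      _ ≤ ∑ ω, 3 * (μ ω * ((A ω).cost (toReal x) : ℝ)) := Finset.sum_le_sum fun ω _ => hc2 ω
      _ = 3 * ∑ ω, μ ω * ((A ω).cost (toReal x) : ℝ) := by rw [Finset.mul_sum]
      _ ≤ 3 * E := by
          have := (hx x h1).2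
          linarith
  linarith

end Pool.Agent.FourLin
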