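import Mathlib

/-!
The choice of the parameters for five-linear decision trees.
-/

namespace Pool.Agent.FourLin

/-- With `x = √(log₂ n)` and `c = log₂ C` choose `b = ⌈x / 12 - c / 2⌉ + 7`, a prime
`2 ^ (b - 1) < p ≤ 2 ^ b` (Bertrand), `K = ⌈C⌉` and `R = b + ⌈c⌉ + 5`. -/
theorem exists_params5 : ∃ N₀ : ℕ, ∀ n ≥ N₀, ∀ C : ℝ, 1 ≤ C →
    C ≤ (2 : ℝ) ^ (Real.sqrt (Real.logb 2 n) / 12) → ∃ p K R : ℕ, p.Prime ∧ C ≤ K ∧
    3 * p * K + 3 * p < 2 ^ R ∧ 6 * p ^ (136 * (R + 2) + 18) ≤ n ∧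
    (54 : ℝ) * (2 : ℝ) ^ (Real.sqrt (Real.logb 2 n) / 12) ≤ p * Real.sqrt C := by
  have ht : Filter.Tendsto (fun n : ℕ => Real.sqrt (Real.logb 2 (n : ℝ))) Filter.atTop
      Filter.atTop :=
    (Real.tendsto_sqrt_atTop.comp (Real.tendsto_logb_atTop (by norm_num))).comp
      tendsto_natCast_atTop_atTop
  obtain ⟨N, hN⟩ := Filter.eventually_atTop.1 (ht.eventually (Filter.eventually_ge_atTop (8000 : ℝ)))
  refine ⟨N + 1, fun n hn C hC1 hC2 => ?_⟩
  have hx : 8000 ≤ Real.sqrt (Real.logb 2 (n : ℝ)) := hN n (by omega)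
  have hn0 : (0 : ℝ) < n := by
    have : 0 < n := by omega
    exact_mod_cast this
  set x : ℝ := Real.sqrt (Real.logb 2 (n : ℝ)) with hxdef
  have hl : x ^ 2 = Real.logb 2 n := by
    rw [hxdef]
    refine Real.sq_sqrt ?_
    by_contra hneg
    push Not at hneg
    rw [Real.sqrt_eq_zero_of_nonpos hneg.le] at hxdef
    linarith
  have hC0 : 0 < C := by linarith
  set c : ℝ := Real.logb 2 C with hcdef
  have hc0 : 0 ≤ c := Real.logb_nonneg (by norm_num) hC1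
  have hcx : c ≤ x / 12 := by
    have := Real.logb_le_logb_of_le (b := 2) (by norm_num) hC0 hC2
    rwa [Real.logb_rpow (by norm_num) (by norm_num)] at this
  have hCc : C = (2 : ℝ) ^ c := (Real.rpow_logb (by norm_num) (by norm_num) hC0).symm
  have hbx : 0 ≤ x / 12 - c / 2 := by linarith
  set b : ℕ := ⌈x / 12 - c / 2⌉₊ + 7 with hb
  have hb1 : x / 12 - c / 2 + 7 ≤ b := by
    rw [hb]
    push_cast
    have := Nat.le_ceil (x / 12 - c / 2)
    linarith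
  have hb2 : (b : ℝ) ≤ x / 12 - c / 2 + 8 := by
    rw [hb]
    push_cast
    have := Nat.ceil_lt_add_one hbx
    linarith
  set e : ℕ := ⌈c⌉₊ with he
  have he1 : c ≤ e := Nat.le_ceil c
  have he2 : (e : ℝ) ≤ c + 1 := (Nat.ceil_lt_add_one hc0).le
  obtain ⟨p, hp, hp1, hp2⟩ := Nat.exists_prime_lt_and_le_two_mul (2 ^ (b - 1)) (by positivity)
  have hpb : p ≤ 2 ^ b := by
    refine hp2.trans (le_of_eq ?_)
    rw [← pow_succ', show b - 1 + 1 = b by omega]
  have hK : ⌈C⌉₊ ≤ 2 ^ e := by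
    apply Nat.ceil_le.2
    rw [hCc, Nat.cast_pow, Nat.cast_ofNat, ← Real.rpow_natCast]
    exact Real.rpow_le_rpow_of_exponent_le (by norm_num) he1
  refine ⟨p, ⌈C⌉₊, b + e + 5, hp, Nat.le_ceil C, ?_, ?_, ?_⟩
  · have h1 : 3 * p * ⌈C⌉₊ + 3 * p ≤ 3 * 2 ^ b * 2 ^ e + 3 * 2 ^ b :=
      Nat.add_le_add (Nat.mul_le_mul (Nat.mul_le_mul_left 3 hpb) hK) (Nat.mul_le_mul_left 3 hpb)
    have h2 : 1 ≤ 2 ^ e := Nat.one_le_two_pow
    have h3 : 1 ≤ 2 ^ b := Nat.one_le_two_pow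
    have h4 : 2 ^ (b + e + 5) = 32 * (2 ^ b * 2 ^ e) := by
      rw [pow_add, pow_add]
      ring
    have h5 : 2 ^ b ≤ 2 ^ b * 2 ^ e := Nat.le_mul_of_pos_right _ h2
    rw [h4]
    nlinarith
  · have h1 : 6 * p ^ (136 * (b + e + 5 + 2) + 18) ≤
        2 ^ (3 + b * (136 * (b + e + 5 + 2) + 18)) := by
      have h6 : 2 ^ (3 + b * (136 * (b + e + 5 + 2) + 18)) =
          2 ^ 3 * (2 ^ b) ^ (136 * (b + e + 5 + 2) + 18) := by
        rw [pow_add, pow_mul]
      rw [h6]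
      exact Nat.mul_le_mul (by norm_num) (Nat.pow_le_pow_left hpb _)
    refine h1.trans ?_
    have h2 : ((2 ^ (3 + b * (136 * (b + e + 5 + 2) + 18)) : ℕ) : ℝ) ≤ (n : ℝ) := by
      rw [Nat.cast_pow, Nat.cast_ofNat, ← Real.rpow_natCast]
      calc (2 : ℝ) ^ (((3 + b * (136 * (b + e + 5 + 2) + 18) : ℕ)) : ℝ)
          ≤ (2 : ℝ) ^ (Real.logb 2 (n : ℝ)) := by
            apply Real.rpow_le_rpow_of_exponent_le (by norm_num)
            rw [← hl]
            push_cast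
            have hb0 : (0 : ℝ) ≤ b := Nat.cast_nonneg b
            have h7 : (136 * ((b : ℝ) + e + 5 + 2) + 18) ≤ 136 * (x / 12 + c / 2 + 17) := by
              linarith
            have h8 : (b : ℝ) * (136 * ((b : ℝ) + e + 5 + 2) + 18) ≤
                (x / 12 - c / 2 + 8) * (136 * (x / 12 + c / 2 + 17)) := by
              apply mul_le_mul hb2 h7 _ (by linarith)
              positivity
            nlinarith
        _ = n := Real.rpow_logb (by norm_num) (by norm_num) hn0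
    exact_mod_cast h2
  · have h3 : ((2 ^ (b - 1) : ℕ) : ℝ) ≤ (p : ℝ) := by exact_mod_cast hp1.le
    have h6 : Real.sqrt C = (2 : ℝ) ^ (c / 2) := by
      rw [hCc, Real.sqrt_eq_rpow, ← Real.rpow_mul (by norm_num)]
      congr 1
      ring
    rw [h6]
    refine le_trans ?_ (mul_le_mul_of_nonneg_right h3 (by positivity))
    rw [Nat.cast_pow, Nat.cast_ofNat, ← Real.rpow_natCast, ← Real.rpow_add (by norm_num)]
    have h4 : (54 : ℝ) ≤ (2 : ℝ) ^ (6 : ℝ) := by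
      rw [show (6 : ℝ) = ((6 : ℕ) : ℝ) by norm_num, Real.rpow_natCast]
      norm_num
    calc (54 : ℝ) * (2 : ℝ) ^ (x / 12) ≤ (2 : ℝ) ^ (6 : ℝ) * (2 : ℝ) ^ (x / 12) :=
          mul_le_mul_of_nonneg_right h4 (by positivity)
      _ = (2 : ℝ) ^ (6 + x / 12) := (Real.rpow_add (by norm_num) _ _).symm
      _ ≤ (2 : ℝ) ^ (((b - 1 : ℕ) : ℝ) + c / 2) := by
          apply Real.rpow_le_rpow_of_exponent_le (by norm_num)
          have h5 : ((b - 1 : ℕ) : ℝ) = b - 1 := by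
            rw [Nat.cast_sub (by omega), Nat.cast_one]
          rw [h5]
          linarith

end Pool.Agent.FourLin
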