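import Pool.Agent.FourLin.Final
import Pool.Agent.FiveLin.Graph5
import Pool.Agent.FiveLin.CosetPert5
import Pool.Agent.FiveLin.Lower5
import Pool.Agent.FiveLin.Num5

/-!
The lower bound for five-linear decision trees.
-/

set_option linter.unusedSectionVars false
set_option linter.unusedSimpArgs false

namespace Pool.Agent.FourLin

open Polynomial

/-- The coset graphs. -/
theorem exists_graph5 (p K R : ℕ) (hp : p.Prime) (hR : 3 * p * K + 3 * p < 2 ^ R) {C : ℝ}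
    (hC : 1 ≤ C) (hCK : C ≤ K) :
    ∃ N₁ : ℕ, 0 < N₁ ∧ N₁ ≤ p ^ (136 * (R + 2) + 18) ∧ ∀ M : ℕ, 0 < M →
      ∃ (X I T : Type) (_ : DecidableEq X) (_ : Fintype I) (_ : DecidableEq I) (_ : Fintype T)
        (Γ : TGraph X I T) (P : Pert5 Γ C), Γ.Penta ∧ (∀ e, ∃ z : ℤ, P.w e = z) ∧
        (∀ t e, ∃ z : ℤ, P.wt t e = z) ∧ Fintype.card T = M * N₁ ∧
        Fintype.card I * p ≤ 3 * (M * N₁) := by
  classical
  have : Fact p.Prime := ⟨hp⟩
  have hd : R + 2 ≠ 0 := by omega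
  obtain ⟨t, ht⟩ := exists_gen p (R + 2) hd
  refine ⟨Nat.card (M2 (GaloisField p (R + 2)))ˣ * Nat.card (QT p (R + 2) t),
    Nat.mul_pos Nat.card_pos Nat.card_pos, card_QT p (R + 2) hd t, ?_⟩
  intro M hM
  have : NeZero M := ⟨hM.ne'⟩
  set L := conc (F := ZMod p) t with hL
  set G := ((M2 (GaloisField p (R + 2)))ˣ × Multiplicative (ZMod M)) × QQ L × QQ L × QQ L with hG
  have : Finite (Multiplicative (ZMod M)) := inferInstanceAs (Finite (ZMod M))
  haveI : Fintype G := Fintype.ofFinite G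
  let D : CosetGeo (ZMod p) G := L.geo (tri t (Multiplicative (ZMod M)))
  have h5 : D.Five := L.five (tri t (Multiplicative (ZMod M)))
  have hj : ∀ i x, prj L (Multiplicative (ZMod M)) (D.a i x) = nm t i x :=
    prj_aa t (Multiplicative (ZMod M))
  have hR' : p ≤ 2 ^ R := by omega
  have hgood : D.Good R := ⟨hR', fun g => wtot_bounds ht hj D.a_add (by omega) g,
    wtot_one ht hj (by omega)⟩
  have hCN : C * (3 * p) ≤ ((3 * p * K : ℕ) : ℝ) := by
    push_cast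
    have h0 : (0 : ℝ) ≤ 3 * p := by positivity
    nlinarith
  have hcard : Fintype.card G = M * (Nat.card (M2 (GaloisField p (R + 2)))ˣ *
      Nat.card (QT p (R + 2) t)) := by
    rw [← Nat.card_eq_fintype_card, hG, Nat.card_prod, Nat.card_prod]
    have : Nat.card (Multiplicative (ZMod M)) = M := Nat.card_zmod M
    rw [this]
    ring
  refine ⟨D.W, D.E, G, Classical.decEq _, inferInstance, inferInstance, inferInstance,
    D.graph, D.pert5 hgood hC hCN hR, D.penta h5, D.pert5_w hgood hC hCN hR,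
    D.pert5_wt hgood hC hCN hR, hcard, ?_⟩
  rw [← hcard]
  exact D.card_E_mul_le

/-- For large `n` there is a graph with at most `n` edges and many triangles. -/
theorem exists_large5 : ∃ N₀ : ℕ, ∀ n ≥ N₀, ∀ C : ℝ, 1 ≤ C →
    C ≤ (2 : ℝ) ^ (Real.sqrt (Real.logb 2 n) / 12) →
    ∃ (X I T : Type) (_ : DecidableEq X) (_ : Fintype I) (_ : DecidableEq I) (_ : Fintype T)
      (Γ : TGraph X I T) (P : Pert5 Γ C), Γ.Penta ∧ (∀ e, ∃ z : ℤ, P.w e = z) ∧
      (∀ t e, ∃ z : ℤ, P.wt t e = z) ∧ Nonempty (I ↪ Fin n) ∧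
      9 * ((n : ℝ) * (2 : ℝ) ^ (Real.sqrt (Real.logb 2 n) / 12)) ≤
        Fintype.card T * Real.sqrt C := by
  obtain ⟨N₀, hN₀⟩ := exists_params5
  refine ⟨max N₀ 1, ?_⟩
  intro n hn C hC hC2
  obtain ⟨p, K, R, hp, hCK, hR, hsize, hpn⟩ := hN₀ n (le_trans (le_max_left _ _) hn) C hC hC2
  have hn1 : 1 ≤ n := le_trans (le_max_right _ _) hn
  obtain ⟨N₁, hN1, hN2, hgr⟩ := exists_graph5 p K R hp hR hC hCK
  have h6 : 6 * N₁ ≤ n := le_trans (Nat.mul_le_mul_left 6 hN2) hsize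
  set M := n * p / (3 * N₁) with hMdef
  have hnp : n ≤ n * p := Nat.le_mul_of_pos_right n hp.pos
  have hM : 0 < M := by
    apply Nat.div_pos _ (by omega)
    omega
  have hM1 : 3 * (M * N₁) ≤ n * p := by
    have := Nat.div_mul_le_self (n * p) (3 * N₁)
    calc 3 * (M * N₁) = M * (3 * N₁) := by ring
      _ ≤ n * p := this
  have hM2 : n * p ≤ 6 * (M * N₁) := by
    have h1 : n * p < (M + 1) * (3 * N₁) := Nat.lt_mul_of_div_lt (Nat.lt_succ_self _) (by omega)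
    nlinarith
  obtain ⟨X, I, T, i1, i2, i3, i4, Γ, P, hpen, hw, hwt, hT, hI⟩ := hgr M hM
  refine ⟨X, I, T, i1, i2, i3, i4, Γ, P, hpen, hw, hwt, ?_, ?_⟩
  · have h1 : Fintype.card I * p ≤ n * p := le_trans hI hM1
    have h2 : Fintype.card I ≤ n := Nat.le_of_mul_le_mul_right h1 hp.pos
    have h3 : Fintype.card I ≤ Fintype.card (Fin n) := by rw [Fintype.card_fin]; exact h2
    exact Function.Embedding.nonempty_of_card_le h3
  · rw [hT]
    have h1 : ((n * p : ℕ) : ℝ) ≤ ((6 * (M * N₁) : ℕ) : ℝ) := by exact_mod_cast hM2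
    have h2 : (n : ℝ) * ((54 : ℝ) * (2 : ℝ) ^ (Real.sqrt (Real.logb 2 n) / 12)) ≤
        n * (p * Real.sqrt C) := mul_le_mul_of_nonneg_left hpn (Nat.cast_nonneg n)
    have h3 := mul_le_mul_of_nonneg_right h1 (Real.sqrt_nonneg C)
    push_cast at h3 ⊢
    linarith

/-- The lower bound for five-linear decision trees. -/
theorem main5 : ∃ N₀ : ℕ, ∀ n ≥ N₀, ∀ σ : ℝ, σ = 1 ∨ σ = -1 →
    ∀ C : ℝ, 1 ≤ C → C ≤ (2 : ℝ) ^ (Real.sqrt (Real.logb 2 n) / 12) →
    ∀ (Ω : Type) [Fintype Ω] (E : ℝ) (μ : Ω → ℝ) (A : Ω → LTree n), Solver σ n 5 E μ A →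
      (∀ ω, (A ω).IsSeparated C) →
      (n : ℝ) * (2 : ℝ) ^ (Real.sqrt (Real.logb 2 n) / 12) / Real.sqrt C ≤ E := by
  obtain ⟨N₀, hN₀⟩ := exists_large5
  refine ⟨N₀, ?_⟩
  intro n hn σ hσ C hC hC2 Ω _ E μ A h hm
  obtain ⟨X, I, T, i1, i2, i3, i4, Γ, P, hpen, hw, hwt, ⟨emb⟩, hT⟩ := hN₀ n hn C hC hC2
  have h1 := solver_bound5 P hpen hw hwt emb hσ h hm
  have h2 : 0 < Real.sqrt C := Real.sqrt_pos.2 (by linarith)
  rw [div_le_iff₀ h2]
  have h3 := mul_le_mul_of_nonneg_right h1 h2.le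
  linarith

end Pool.Agent.FourLin
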