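import Pool.Agent.FourLin.Geo

/-!
Relations of length five in the coset geometry of `FourLin`.
-/

set_option linter.unusedSectionVars false
set_option linter.unusedSimpArgs false

namespace Pool.Agent.FourLin

open TensorProduct

variable {F K V Z : Type*} [Field F] [Field K] [Algebra F K] [Group V] [AddCommGroup Z]
  [Module K Z]

namespace QQ

variable {L : Loc F K V Z}

theorem Q5 {g h g' h' k : V} (heq : Lh L g * Rh L h * Lh L g' * Rh L h' = Hh L k) :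
    L.ψ h = 0 ∨ ∃ s r, g = L.aF s * L.aE r := by
  have h1 := congrArg QQ.c heq
  have hg := congrArg QQ.g heq
  have hh := congrArg QQ.h heq
  simp only [mul_g, mul_h, Lh_g, Lh_h, Rh_g, Rh_h, Hh_g, Hh_h] at hg hh
  by_cases h0 : L.ψ h = 0
  · exact Or.inl h0
  right
  -- the cocycle at the product of the first coordinates
  have e1 : L.ψ (g * L.aE (L.εE h) * g') = algebraMap F K (L.εE k) • L.η := by
    have : g * L.aE (L.εE h) * g' = L.aF (L.εE k) * L.aE (-L.εE h') := by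
      rw [← hg, mul_assoc _ (L.aE (L.εE h')), ← L.aE_add, add_neg_cancel, L.aE_zero, mul_one]
    rw [this, L.ψ_mul, L.ψ_aE, map_zero, add_zero, L.ψ_aF]
  set B := L.ρ (L.aE (L.εE g)) (L.ψ h) with hB
  have e2 : L.ρ (L.aE (L.εE g) * h * L.aE (L.εE g')) (L.ψ h') =
      algebraMap F K (L.εF k) • L.η - B := by
    have e3 : L.ψ (L.aE (L.εE g) * h * L.aE (L.εE g')) = B := by
      rw [L.ψ_mul, L.ψ_mul, L.ψ_aE, L.ψ_aE, map_zero, add_zero, zero_add]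
    have e4 := L.ψ_mul (L.aE (L.εE g) * h * L.aE (L.εE g')) h'
    rw [hh, L.ψ_aF, e3] at e4
    rw [e4, add_sub_cancel_left]
  have e5 : (Lh L g * Rh L h * Lh L g' * Rh L h').c = L.ψ g ⊗ₜ[K] B +
      (algebraMap F K (L.εE k) • L.η) ⊗ₜ[K] (algebraMap F K (L.εF k) • L.η - B) := by
    rw [← e1, ← e2]
    simp [mul_c, L.ψ_aE, ← hB]
  rw [e5, Hh_c] at h1
  have hb : B ≠ 0 := fun h' => h0 (L.ρ_eq_zero h')
  obtain ⟨ξ, hξ⟩ := exists_dual_one (K := K) hb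
  have h2 := congrArg (ev2 ξ) h1
  rw [map_add, ev2_tmul, ev2_tmul, map_smul, ev2_tmul, map_sub, map_smul, hξ, one_smul] at h2
  set s := algebraMap F K (L.w k) * ξ L.η -
    (algebraMap F K (L.εF k) * ξ L.η - 1) * algebraMap F K (L.εE k)
  have h3 : L.ψ g = s • L.η := by
    rw [sub_smul, mul_smul, mul_smul, ← h2, smul_eq_mul]
    simp only [smul_smul]
    abel
  have h6 : algebraMap F K (L.εF g) = s := by
    have := congrArg L.lam h3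
    rwa [L.lam_ψ, map_smul, L.lam_η, smul_eq_mul, mul_one] at this
  have h5 : L.ψ (L.aF (-L.εF g) * g) = 0 := by
    rw [L.ψ_mul, L.ψ_aF, h3, map_smul, L.ρ_aF, ← add_smul, map_neg, h6, neg_add_cancel, zero_smul]
  refine ⟨L.εF g, L.εE (L.aF (-L.εF g) * g), ?_⟩
  rw [← L.eq_aE _ h5, ← mul_assoc, ← L.aF_add, add_neg_cancel, L.aF_zero, one_mul]

end QQ

/-- Relations of length five of the type `V (i+1), V (i+2), V (i+1), V (i+2), V i` are the obvious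
ones. -/
def CosetGeo.Five {F G : Type*} [AddCommGroup F] [Group G] (D : CosetGeo F G) : Prop :=
  ∀ i, ∀ p ∈ D.V (i + 1), ∀ q ∈ D.V (i + 2), ∀ r ∈ D.V (i + 1), ∀ s ∈ D.V (i + 2), ∀ k ∈ D.V i,
    p * q * r * s * k = 1 → q ∈ D.V (i + 1) ∨ r ∈ D.V (i + 2) ∨
      (∃ x y, p = D.a i x * D.a (i + 1) y) ∨ (∃ x y, s = D.a (i + 1) x * D.a (i + 2) y)

namespace Loc

variable (L : Loc F K V Z) {G0 : Type*} [Group G0] (J : Tri L G0)

theorem five : (L.geo J).Five := by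
  intro i
  fin_cases i
  · show ∀ p ∈ (L.s1 J).range, ∀ q ∈ (L.s2 J).range, ∀ r ∈ (L.s1 J).range,
      ∀ s ∈ (L.s2 J).range, ∀ k ∈ (L.s0 J).range, p * q * r * s * k = 1 →
        q ∈ (L.s1 J).range ∨ r ∈ (L.s2 J).range ∨
          (∃ x y, p = L.s0 J (L.aE x) * L.s1 J (L.aF y)) ∨
          (∃ x y, s = L.s1 J (L.aF x) * L.s0 J (L.aF y))
    rintro _ ⟨g, rfl⟩ _ ⟨h, rfl⟩ _ ⟨g', rfl⟩ _ ⟨h', rfl⟩ _ ⟨k, rfl⟩ heq
    have h1 : QQ.Lh L (L.τ g) * QQ.Rh L (L.τ h) * QQ.Lh L (L.τ g') * QQ.Rh L (L.τ h') *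
        QQ.Hh L k = 1 := congrArg (fun v => v.2.2.2) heq
    have h2 : QQ.Lh L (L.τ g) * QQ.Rh L (L.τ h) * QQ.Lh L (L.τ g') * QQ.Rh L (L.τ h') =
        QQ.Hh L k⁻¹ := by
      rw [map_inv, eq_inv_iff_mul_eq_one]
      exact h1
    rcases QQ.Q5 h2 with h3 | ⟨x, y, h3⟩
    · left
      exact ⟨_, (L.s12 J _).trans (congrArg (L.s2 J) (L.τ_eq_aE (L.eq_aE _ h3)).symm)⟩
    · right; right; left
      have h4 : g = L.aE x * L.aF y := by
        apply L.τ_inj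
        rw [h3, map_mul, L.τ_aE, L.τ_aF]
      refine ⟨x, y, ?_⟩
      rw [h4, map_mul, L.s01]
  · show ∀ p ∈ (L.s2 J).range, ∀ q ∈ (L.s0 J).range, ∀ r ∈ (L.s2 J).range,
      ∀ s ∈ (L.s0 J).range, ∀ k ∈ (L.s1 J).range, p * q * r * s * k = 1 →
        q ∈ (L.s2 J).range ∨ r ∈ (L.s0 J).range ∨
          (∃ x y, p = L.s1 J (L.aF x) * L.s0 J (L.aF y)) ∨
          (∃ x y, s = L.s0 J (L.aF x) * L.s0 J (L.aE y))
    rintro _ ⟨h', rfl⟩ _ ⟨g', rfl⟩ _ ⟨h, rfl⟩ _ ⟨g, rfl⟩ _ ⟨k, rfl⟩ heq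
    have h1 : QQ.Rh L h' * QQ.Lh L (L.τ g') * QQ.Rh L h * QQ.Lh L (L.τ g) * QQ.Hh L k = 1 :=
      congrArg (fun v => v.2.2.1) heq
    have h2 : QQ.Lh L (L.τ g)⁻¹ * QQ.Rh L h⁻¹ * QQ.Lh L (L.τ g')⁻¹ * QQ.Rh L h'⁻¹ =
        QQ.Hh L k := by
      rw [map_inv, map_inv, map_inv, map_inv, ← mul_inv_rev, ← mul_inv_rev, ← mul_inv_rev,
        inv_eq_iff_mul_eq_one]
      simpa only [mul_assoc] using h1
    rcases QQ.Q5 h2 with h3 | ⟨x, y, h3⟩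
    · right; left
      have h4 : L.s2 J h⁻¹ = L.s0 J (L.aF (L.εE h⁻¹)) :=
        (congrArg (L.s2 J) (L.eq_aE _ h3)).trans (L.s02 J _).symm
      refine ⟨(L.aF (L.εE h⁻¹))⁻¹, ?_⟩
      rw [map_inv, ← h4, map_inv, inv_inv]
    · right; right; right
      have h4 : g⁻¹ = L.aE x * L.aF y := by
        apply L.τ_inj
        rw [map_inv, h3, map_mul, L.τ_aE, L.τ_aF]
      refine ⟨-y, -x, ?_⟩
      rw [← map_mul]
      congr 1
      rw [a_neg (a := fun (_ : ZMod 3) => L.aE) (fun _ => L.aE_add) 0,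
        a_neg (a := fun (_ : ZMod 3) => L.aF) (fun _ => L.aF_add) 0, ← mul_inv_rev, ← h4, inv_inv]
  · show ∀ p ∈ (L.s0 J).range, ∀ q ∈ (L.s1 J).range, ∀ r ∈ (L.s0 J).range,
      ∀ s ∈ (L.s1 J).range, ∀ k ∈ (L.s2 J).range, p * q * r * s * k = 1 →
        q ∈ (L.s0 J).range ∨ r ∈ (L.s1 J).range ∨
          (∃ x y, p = L.s0 J (L.aF x) * L.s0 J (L.aE y)) ∨
          (∃ x y, s = L.s0 J (L.aE x) * L.s1 J (L.aF y))
    rintro _ ⟨g, rfl⟩ _ ⟨h, rfl⟩ _ ⟨g', rfl⟩ _ ⟨h', rfl⟩ _ ⟨k, rfl⟩ heq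
    have h1 : QQ.Lh L g * QQ.Rh L h * QQ.Lh L g' * QQ.Rh L h' * QQ.Hh L k = 1 :=
      congrArg (fun v => v.2.1) heq
    have h2 : QQ.Lh L g * QQ.Rh L h * QQ.Lh L g' * QQ.Rh L h' = QQ.Hh L k⁻¹ := by
      rw [map_inv, eq_inv_iff_mul_eq_one]
      exact h1
    rcases QQ.Q5 h2 with h3 | ⟨x, y, h3⟩
    · left
      exact ⟨_, (L.s01 J _).trans (congrArg (L.s1 J) (L.eq_aE _ h3).symm)⟩
    · right; right; left
      refine ⟨x, y, ?_⟩
      rw [h3, map_mul]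

end Loc

end Pool.Agent.FourLin
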